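import Mathlib

/-!
# Sharp smoothed Fatou: the block lemma, definitions

`f` is a map of a set `X` (later: a rational map of the sphere), `a` its rate of expansion (spherical derivative), `D` the chordal distance, `C` the set of
the critical points, `R` the distance to `C` cut at `ρ0`, `ρ` the radius of the zone of linearity (used at the points of the critical orbits only).
A point is deep if `R x * a x < Δ`.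
-/

set_option autoImplicit false

open Finset

namespace Pool.Agent.H91.BL

/-- map, rate of expansion, distance, distance to the critical set, radius of the linear zone, critical set -/
structure Sy (X : Type) where
  f : X → X
  a : X → ℝ
  D : X → X → ℝ
  R : X → ℝ
  ρ : X → ℝ
  C : Set X

variable {X : Type}

/-- derivative of the `n`-th iterate -/
noncomputable def P (S : Sy X) (n : ℕ) (x : X) : ℝ := ∏ i ∈ range n, S.a (S.f^[i] x)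

/-- hypotheses of the block lemma -/
structure Hyp (S : Sy X) (Λ Δ ρ0 θ Ea Eρ M Sm Γ Γp : ℝ) (k0 n0 : ℕ) : Prop where
  hΛ : 8 ≤ Λ
  hθ : 0 < θ
  hθE : θ ≤ 1 / (2 * Ea)
  hM : 1 ≤ M
  hEa : 1 ≤ Ea
  hEρ : 1 ≤ Eρ
  hρ0 : 0 < ρ0
  hρ1 : ρ0 ≤ 1
  hEρ0 : 1 / Eρ ≤ ρ0
  hn0 : 1 ≤ n0
  hΔ : Λ * Sm * ρ0 ≤ Δ
  hΓp : Λ * Sm ≤ Γp
  D0 : ∀ x y, 0 ≤ S.D x y
  Dz : ∀ x, S.D x x = 0
  Ds : ∀ x y, S.D x y = S.D y x
  Dt : ∀ x y z, S.D x z ≤ S.D x y + S.D y z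
  a0 : ∀ x, 0 ≤ S.a x
  R0 : ∀ x, 0 ≤ S.R x
  Rl : ∀ x y, S.R x ≤ S.R y + S.D x y
  Rρ : ∀ x, S.R x ≤ ρ0
  aR : ∀ x, S.a x ≤ M * S.R x
  ρR : ∀ x, S.ρ x ≤ S.R x
  near : ∀ x, S.R x * S.a x < Δ → θ ≤ S.a x → ∃ c ∈ S.C, S.D x c ≤ S.R x
  dbl1 : ∀ x, S.R x * S.a x < Δ → θ ≤ S.a x → ∀ s : ℝ, 1 ≤ s → s ≤ Sm → ∀ y,
    S.D x y ≤ s * S.R x → S.a y ≤ Λ * s ^ k0 * S.a x
  dbl2 : ∀ x, S.R x * S.a x < Δ → θ ≤ S.a x → ∀ s : ℝ, 1 ≤ s → s ≤ Sm → ∀ y z,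
    S.D x y ≤ s * S.R x → S.D x z ≤ s * S.R x →
      S.D (S.f y) (S.f z) ≤ Λ * s ^ (k0 + 1) * (S.R x * S.a x)
  lin1 : ∀ c ∈ S.C, ∀ l ≤ n0, ∀ z, S.D z (S.f^[l] (S.f c)) ≤ S.ρ (S.f^[l] (S.f c)) / Λ →
    (1 - 1 / (8 * n0)) * S.a (S.f^[l] (S.f c)) ≤ S.a z ∧
      S.a z ≤ (1 + 1 / (8 * n0)) * S.a (S.f^[l] (S.f c))
  lin2 : ∀ c ∈ S.C, ∀ l ≤ n0, ∀ z, S.D z (S.f^[l] (S.f c)) ≤ S.ρ (S.f^[l] (S.f c)) / Λ →
    (1 - 1 / (8 * n0)) * (S.a (S.f^[l] (S.f c)) * S.D z (S.f^[l] (S.f c))) ≤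
        S.D (S.f z) (S.f^[l + 1] (S.f c)) ∧
      S.D (S.f z) (S.f^[l + 1] (S.f c)) ≤
        (1 + 1 / (8 * n0)) * (S.a (S.f^[l] (S.f c)) * S.D z (S.f^[l] (S.f c)))
  pole : ∀ c ∈ S.C, ∀ l ≤ n0, ∀ z, S.ρ (S.f^[l] (S.f c)) < S.R (S.f^[l] (S.f c)) →
    S.ρ (S.f^[l] (S.f c)) ≤ Sm * S.D z (S.f^[l] (S.f c)) →
    Λ * S.D z (S.f^[l] (S.f c)) ≤ S.R (S.f^[l] (S.f c)) →
      Γp * ρ0 ≤ S.a z * S.D z (S.f^[l] (S.f c))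
  gro : ∀ c ∈ S.C, ∀ n, 2 ≤ n → n ≤ n0 → Γ ≤ P S n (S.f c)
  alo : ∀ c ∈ S.C, ∀ l ≤ n0, 1 / Ea ≤ S.a (S.f^[l] (S.f c))
  rlo : ∀ c ∈ S.C, ∀ l ≤ n0, 1 / Eρ ≤ S.ρ (S.f^[l] (S.f c))

/-- scales -/
noncomputable def Sc (Λ : ℝ) (b k : ℕ) : ℝ := Λ ^ b ^ k

theorem P_zero (S : Sy X) (x : X) : P S 0 x = 1 := by simp [P]

theorem P_succ (S : Sy X) (n : ℕ) (x : X) : P S (n + 1) x = P S n x * S.a (S.f^[n] x) := by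
  unfold P
  rw [prod_range_succ]

theorem P_one (S : Sy X) (x : X) : P S 1 x = S.a x := by simp [P]

theorem P_add (S : Sy X) (m n : ℕ) (x : X) : P S (m + n) x = P S m x * P S n (S.f^[m] x) := by
  unfold P
  rw [prod_range_add]
  congr 1
  refine prod_congr rfl fun i _ => ?_
  rw [← Function.iterate_add_apply, add_comm i m]

theorem P_succ' (S : Sy X) (n : ℕ) (x : X) : P S (n + 1) x = S.a x * P S n (S.f x) := by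
  rw [add_comm, P_add, P_one]
  rfl

theorem Sc_zero (Λ : ℝ) (b : ℕ) : Sc Λ b 0 = Λ := by simp [Sc]

theorem Sc_succ (Λ : ℝ) (b k : ℕ) : Sc Λ b (k + 1) = Sc Λ b k ^ b := by
  unfold Sc
  rw [← pow_mul, pow_succ]

theorem Sc_mono {Λ : ℝ} {b : ℕ} (hΛ : 1 ≤ Λ) (hb : 1 ≤ b) {k l : ℕ} (h : k ≤ l) :
    Sc Λ b k ≤ Sc Λ b l := pow_le_pow_right₀ hΛ (Nat.pow_le_pow_right hb h)

theorem Sc_ge {Λ : ℝ} {b : ℕ} (hΛ : 1 ≤ Λ) (hb : 1 ≤ b) (k : ℕ) : Λ ≤ Sc Λ b k := by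
  have h := Sc_mono hΛ hb (Nat.zero_le k)
  rwa [Sc_zero] at h

end Pool.Agent.H91.BL
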