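import Pool.Agent.H91.BL.Wdw

/-!
# Sharp smoothed Fatou: the block lemma, conclusions

`blo_of`: blocks of bounded length outside the deep set `a < θ`. `win_of`: growth over all windows of the critical orbits.
-/

set_option autoImplicit false

open Finset

namespace Pool.Agent.H91.BL

variable {X : Type} {S : Sy X} {Λ Δ ρ0 θ Ea Eρ M Sm Γ Γp K1 A K E κ : ℝ}
  {k0 n0 nf b W N : ℕ}

/-- **Blocks.** -/
theorem blo_of (H : Hyp S Λ Δ ρ0 θ Ea Eρ M Sm Γ Γp k0 n0) (hb : 2 * k0 + 20 ≤ b)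
    (hSm : Sc Λ b (2 * W + 2) ≤ Sm) (hΓS : Sm ≤ Γ)
    (hW : Sm ^ (W + 1) * M ^ 2 < Γ ^ W * θ ^ 2) (hnf : nf + 2 ≤ n0)
    (hA : ∀ c ∈ S.C, ∃ j ≤ nf, A ≤ P S j (S.f c))
    (hAK : 2 * M * Sm * K1 ≤ θ ^ 2 * A) (hN1 : 1 ≤ N) (hN : M * K ≤ Λ ^ N * θ)
    (hKK : M * K ≤ K1 * θ) (hE : Eρ * Sm ≤ E) :
    ∀ x, θ ≤ S.a x → ∃ m, 1 ≤ m ∧ m ≤ N * (2 * W * (nf + 1) + 1) ∧
      (∀ i < m, θ ≤ S.a (S.f^[i] x)) ∧
      (K ≤ P S m x ∨ (1 / E ≤ P S m x ∧ S.a (S.f^[m] x) < θ)) := by
  intro x hx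
  have hΛ := H.hΛ
  have hθ := H.hθ
  have hM := H.hM
  have hEρ := H.hEρ
  have hρ1 := H.hρ1
  have hSm1 : 1 ≤ Sm := (nu_sc (k0 := k0) hΛ hb hSm (Nat.zero_le _)).S1
  have hRx := H.R0 x
  have hRx1 : S.R x ≤ 1 := (H.Rρ x).trans hρ1
  have hPR : ∀ n, P S n x * S.R x ≤ P S n x := fun n =>
    mul_le_of_le_one_right (P_nonneg H n x) hRx1
  obtain ⟨mw, hmw⟩ : ∃ mw : ℕ, mw = 2 * W * (nf + 1) + 1 := ⟨_, rfl⟩
  rw [← hmw]
  have loop : ∀ n ≤ N,
      (∃ m, 1 ≤ m ∧ m ≤ N * mw ∧ (∀ i < m, θ ≤ S.a (S.f^[i] x)) ∧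
        (K ≤ P S m x ∨ (1 / E ≤ P S m x ∧ S.a (S.f^[m] x) < θ))) ∨
      ∃ τ, τ ≤ n * mw ∧ n ≤ τ ∧ (∀ i < τ, θ ≤ S.a (S.f^[i] x)) ∧ θ ≤ S.a (S.f^[τ] x) ∧
        Λ ^ n * S.R (S.f^[τ] x) ≤ P S τ x * S.R x := by
    intro n
    induction n with
    | zero =>
      intro _
      right
      refine ⟨0, by omega, le_rfl, fun i hi => by omega, hx, ?_⟩
      rw [P_zero, pow_zero]
      exact le_rfl
    | succ n ih =>
      intro hn
      rcases ih (by omega) with h | ⟨τ, hτ, hnτ, hpre, hy, hpr⟩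
      · exact Or.inl h
      · obtain ⟨m, hm, ho⟩ := window (K1 := K1) H hb hSm hΓS hW hnf hA hAK hy
        rw [← hmw] at hm
        have hm1 := ho.m1
        have hmul : (n + 1) * mw ≤ N * mw := Nat.mul_le_mul_right _ hn
        have hmul' : (n + 1) * mw = n * mw + mw := by ring
        have hit : ∀ i, S.f^[τ + i] x = S.f^[i] (S.f^[τ] x) := by
          intro i
          rw [add_comm, Function.iterate_add_apply]
        have hpre' : ∀ i < τ + m, θ ≤ S.a (S.f^[i] x) := by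
          intro i hi
          rcases Nat.lt_or_ge i τ with h1 | h1
          · exact hpre i h1
          · obtain ⟨j, rfl⟩ := Nat.exists_eq_add_of_le h1
            rw [hit]
            exact ho.pre j (by omega)
        have hPm := P_nonneg H m (S.f^[τ] x)
        have hRy := H.R0 (S.f^[τ] x)
        have hΛn : 1 ≤ Λ ^ n := one_le_pow₀ (by linarith)
        have hpr' : S.R (S.f^[τ] x) ≤ P S τ x * S.R x := by
          refine le_trans ?_ hpr
          exact le_mul_of_one_le_left hRy hΛn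
        have hPR' : P S (τ + m) x * S.R x = P S τ x * S.R x * P S m (S.f^[τ] x) := by
          rw [P_add]
          ring
        rcases ho.out with ⟨h1, h2⟩ | ⟨h1, h2⟩ | h1
        · right
          refine ⟨τ + m, by omega, by omega, hpre', ?_, ?_⟩
          · rw [hit]; exact h1
          · rw [hPR', hit]
            calc Λ ^ (n + 1) * S.R (S.f^[m] (S.f^[τ] x)) =
                Λ ^ n * (Λ * S.R (S.f^[m] (S.f^[τ] x))) := by ring
              _ ≤ Λ ^ n * (P S m (S.f^[τ] x) * S.R (S.f^[τ] x)) := by gcongr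
              _ = Λ ^ n * S.R (S.f^[τ] x) * P S m (S.f^[τ] x) := by ring
              _ ≤ _ := by gcongr
        · left
          refine ⟨τ + m, by omega, by omega, hpre', Or.inr ⟨?_, ?_⟩⟩
          · refine le_trans ?_ (hPR (τ + m))
            rw [hPR']
            calc 1 / E ≤ 1 / (Eρ * Sm) := one_div_le_one_div_of_le (by positivity) hE
              _ ≤ P S m (S.f^[τ] x) * S.R (S.f^[τ] x) := h2
              _ = S.R (S.f^[τ] x) * P S m (S.f^[τ] x) := mul_comm _ _
              _ ≤ _ := by gcongr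
          · rw [hit]; exact h1
        · left
          refine ⟨τ + m, by omega, by omega, hpre', Or.inl ?_⟩
          refine le_trans ?_ (hPR (τ + m))
          rw [hPR']
          have e1 : θ ≤ M * (P S τ x * S.R x) :=
            (hy.trans (H.aR _)).trans (mul_le_mul_of_nonneg_left hpr' (by linarith))
          have e2 : M * K ≤ M * (P S τ x * S.R x * P S m (S.f^[τ] x)) := by
            calc M * K ≤ K1 * θ := hKK
              _ ≤ P S m (S.f^[τ] x) * (M * (P S τ x * S.R x)) := by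
                  exact mul_le_mul h1 e1 hθ.le hPm
              _ = _ := by ring
          exact le_of_mul_le_mul_left e2 (by linarith)
  rcases loop N le_rfl with h | ⟨τ, hτ, hnτ, hpre, hy, hpr⟩
  · exact h
  · refine ⟨τ, by omega, hτ, hpre, Or.inl ?_⟩
    refine le_trans ?_ (hPR τ)
    have e1 := hy.trans (H.aR _)
    have e2 : M * K ≤ M * (P S τ x * S.R x) := by
      calc M * K ≤ Λ ^ N * θ := hN
        _ ≤ Λ ^ N * (M * S.R (S.f^[τ] x)) := by gcongr
        _ = M * (Λ ^ N * S.R (S.f^[τ] x)) := by ring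
        _ ≤ _ := by gcongr
    exact le_of_mul_le_mul_left e2 (by linarith)

/-- **Windows along the critical orbits.** -/
theorem win_of (H : Hyp S Λ Δ ρ0 θ Ea Eρ M Sm Γ Γp k0 n0) (hb : 2 * k0 + 20 ≤ b)
    (hSm : Sc Λ b (2 * W + 2) ≤ Sm) (hΓS : Sm ≤ Γ)
    (hW : Sm ^ (W + 1) * M ^ 2 < Γ ^ W * θ ^ 2) (hnf : nf + 2 ≤ n0)
    (hA : ∀ c ∈ S.C, ∃ j ≤ nf, A ≤ P S j (S.f c)) (hK1 : Λ * Eρ ≤ K1)
    (hAK : 2 * M * Sm * K1 ≤ θ ^ 2 * A) (hκ : 1 ≤ κ)
    (hκΛ : κ ^ (2 * W * (nf + 1) + 1) ≤ Λ) (hE : 2 * Λ * Ea ^ 2 * Eρ * Sm * ρ0 ≤ E) :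
    ∀ c ∈ S.C, ∀ l j, l + j ≤ n0 → κ ^ j / E ≤ P S j (S.f^[l] (S.f c)) := by
  intro c hc
  have hΛ := H.hΛ
  have hθ := H.hθ
  have hM := H.hM
  have hEρ := H.hEρ
  have hEa := H.hEa
  have hρ1 := H.hρ1
  have hρ0 := H.hρ0
  have hSm1 : 1 ≤ Sm := (nu_sc (k0 := k0) hΛ hb hSm (Nat.zero_le _)).S1
  obtain ⟨mw, hmw⟩ : ∃ mw : ℕ, mw = 2 * W * (nf + 1) + 1 := ⟨_, rfl⟩
  rw [← hmw] at hκΛ
  obtain ⟨E', hE'⟩ : ∃ E' : ℝ, E' = 2 * Ea ^ 2 * Eρ * Sm := ⟨_, rfl⟩
  have hE'0 : 0 < E' := by rw [hE']; positivity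
  have hθa : ∀ l ≤ n0, θ < S.a (S.f^[l] (S.f c)) := by
    intro l hl
    have e1 := H.alo c hc l hl
    have e2 : 1 / (2 * Ea) < 1 / Ea := by
      apply one_div_lt_one_div_of_lt (by linarith)
      linarith
    linarith [H.hθE]
  have main : ∀ j, ∀ l, 1 ≤ j → l + j ≤ n0 →
      κ ^ j ≤ κ ^ mw * E' * (P S j (S.f^[l] (S.f c)) * S.R (S.f^[l] (S.f c))) := by
    intro j
    induction j using Nat.strong_induction_on with
    | _ j ih =>
      intro l hj1 hlj
      obtain ⟨y, hy⟩ : ∃ y, y = S.f^[l] (S.f c) := ⟨_, rfl⟩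
      have hit : ∀ i, S.f^[i] y = S.f^[l + i] (S.f c) := by
        intro i
        rw [hy, ← Function.iterate_add_apply, add_comm]
      have hRy : 1 / Eρ ≤ S.R y := by
        rw [hy]
        exact (H.rlo c hc l (by omega)).trans (H.ρR _)
      rw [← hy]
      obtain ⟨m, hm, ho⟩ := window (K1 := K1) H hb hSm hΓS hW hnf hA hAK (x := y)
        (by rw [hy]; exact (hθa l (by omega)).le)
      rw [← hmw] at hm
      have hm1 := ho.m1
      have hprt : ∀ i, 1 ≤ i → i ≤ m → l + i ≤ n0 → 1 / E' ≤ P S i y * S.R y := by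
        intro i hi1 him hli
        have e1 := ho.prt hRy i hi1 him (1 / Ea) (by positivity)
          (by rw [div_le_one (by linarith)]; exact hEa)
          (fun i' hi' => by rw [hit]; exact H.alo c hc _ (by omega))
        refine le_trans (le_of_eq ?_) e1
        rw [hE']
        field_simp
      rcases Nat.lt_or_ge m j with hmj | hmj
      · -- the window ends before the time `j`
        obtain ⟨i, rfl⟩ := Nat.exists_eq_add_of_le hmj.le
        have hi1 : 1 ≤ i := by omega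
        have h1 := ih i (by omega) (l + m) hi1 (by omega)
        have hz : S.f^[l + m] (S.f c) = S.f^[m] y := (hit m).symm
        rw [hz] at h1
        have hPm := P_nonneg H m y
        have hPi := P_nonneg H i (S.f^[m] y)
        have hRz := H.R0 (S.f^[m] y)
        have hRy0 := H.R0 y
        have hκm : κ ^ m ≤ κ ^ mw := pow_le_pow_right₀ hκ hm
        have hgain : κ ^ m * (P S i (S.f^[m] y) * S.R (S.f^[m] y)) ≤
            P S (m + i) y * S.R y := by
          rw [P_add]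
          rcases ho.out with ⟨-, h2⟩ | ⟨h2, -⟩ | h2
          · calc κ ^ m * (P S i (S.f^[m] y) * S.R (S.f^[m] y)) ≤
                Λ * (P S i (S.f^[m] y) * S.R (S.f^[m] y)) := by
                  have := hκm.trans hκΛ
                  gcongr
              _ = P S i (S.f^[m] y) * (Λ * S.R (S.f^[m] y)) := by ring
              _ ≤ P S i (S.f^[m] y) * (P S m y * S.R y) := by gcongr
              _ = _ := by ring
          · exfalso
            rw [hit] at h2
            have := hθa (l + m) (by omega)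
            linarith
          · have e1 : Λ ≤ P S m y * S.R y := by
              have e2 : Λ * Eρ * (1 / Eρ) ≤ P S m y * S.R y := by
                refine mul_le_mul (hK1.trans h2) hRy (by positivity) hPm
              have e3 : Λ * Eρ * (1 / Eρ) = Λ := by field_simp
              linarith
            have e4 : S.R (S.f^[m] y) ≤ 1 := (H.Rρ _).trans hρ1
            calc κ ^ m * (P S i (S.f^[m] y) * S.R (S.f^[m] y)) ≤
                Λ * (P S i (S.f^[m] y) * 1) := by
                  have := hκm.trans hκΛ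
                  gcongr
              _ ≤ (P S m y * S.R y) * (P S i (S.f^[m] y) * 1) := by gcongr
              _ = _ := by ring
        calc κ ^ (m + i) = κ ^ m * κ ^ i := pow_add _ _ _
          _ ≤ κ ^ m * (κ ^ mw * E' * (P S i (S.f^[m] y) * S.R (S.f^[m] y))) := by gcongr
          _ = κ ^ mw * E' * (κ ^ m * (P S i (S.f^[m] y) * S.R (S.f^[m] y))) := by ring
          _ ≤ _ := by gcongr
      · -- the window ends after the time `j`
        have h1 := hprt j hj1 hmj hlj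
        have h2 : κ ^ j ≤ κ ^ mw := pow_le_pow_right₀ hκ (by omega)
        calc κ ^ j ≤ κ ^ mw * 1 := by rw [mul_one]; exact h2
          _ = κ ^ mw * E' * (1 / E') := by field_simp
          _ ≤ _ := by gcongr
  intro l j hlj
  have hE0 : 0 < E := lt_of_lt_of_le (by positivity) hE
  have hEE : κ ^ mw * E' * ρ0 ≤ E := by
    refine le_trans ?_ hE
    calc κ ^ mw * E' * ρ0 ≤ Λ * E' * ρ0 := by gcongr
      _ = _ := by rw [hE']; ring
  rw [div_le_iff₀ hE0]
  rcases Nat.eq_zero_or_pos j with hj | hj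
  · subst hj
    rw [P_zero, pow_zero, one_mul]
    have e1 : 1 ≤ 2 * Λ * Ea ^ 2 * Eρ * Sm * ρ0 := by
      have e2 : 1 ≤ Eρ * ρ0 := by
        have e3 := H.hEρ0
        rw [div_le_iff₀ (by linarith)] at e3
        linarith
      have e4 : 1 ≤ 2 * Λ * Ea ^ 2 * Sm := by
        have e5 : 1 ≤ Ea ^ 2 := one_le_pow₀ hEa
        have e6 : 1 ≤ 2 * Λ := by linarith
        exact one_le_mul_of_one_le_of_one_le (one_le_mul_of_one_le_of_one_le e6 e5) hSm1
      calc (1 : ℝ) ≤ (2 * Λ * Ea ^ 2 * Sm) * (Eρ * ρ0) :=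
            one_le_mul_of_one_le_of_one_le e4 e2
        _ = _ := by ring
    linarith
  · have h1 := main j l hj hlj
    have hPj := P_nonneg H j (S.f^[l] (S.f c))
    have hR := H.Rρ (S.f^[l] (S.f c))
    calc κ ^ j ≤ κ ^ mw * E' * (P S j (S.f^[l] (S.f c)) * S.R (S.f^[l] (S.f c))) := h1
      _ ≤ κ ^ mw * E' * (P S j (S.f^[l] (S.f c)) * ρ0) := by gcongr
      _ = P S j (S.f^[l] (S.f c)) * (κ ^ mw * E' * ρ0) := by ring
      _ ≤ P S j (S.f^[l] (S.f c)) * E := by gcongr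

end Pool.Agent.H91.BL
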