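import Pool.Agent.H91.BL.Shd

/-!
# Sharp smoothed Fatou: the block lemma, one deep block
-/

set_option autoImplicit false

open Finset

namespace Pool.Agent.H91.BL

variable {X : Type} {S : Sy X} {Λ Δ ρ0 θ Ea Eρ M Sm Γ Γp : ℝ} {k0 n0 : ℕ}

/-- following up to the time `nf`, or an exit -/
theorem exit_or (S : Sy X) (c z : X) (s : ℝ) (nf : ℕ) :
    (∀ l ≤ nf, S.D (S.f^[l] z) (S.f^[l] (S.f c)) ≤ S.ρ (S.f^[l] (S.f c)) / s) ∨
      ∃ L ≤ nf, (∀ l < L, S.D (S.f^[l] z) (S.f^[l] (S.f c)) ≤ S.ρ (S.f^[l] (S.f c)) / s) ∧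
        S.ρ (S.f^[L] (S.f c)) / s < S.D (S.f^[L] z) (S.f^[L] (S.f c)) := by
  classical
  by_cases h : ∃ L, S.ρ (S.f^[L] (S.f c)) / s < S.D (S.f^[L] z) (S.f^[L] (S.f c))
  · by_cases h1 : Nat.find h ≤ nf
    · right
      exact ⟨Nat.find h, h1, fun l hl => not_lt.1 (Nat.find_min h hl), Nat.find_spec h⟩
    · left
      intro l hl
      exact not_lt.1 (Nat.find_min h (by omega))
  · left
    push Not at h
    exact fun l _ => h l

/-- a deep point with its guide -/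
structure Dp (S : Sy X) (Δ θ : ℝ) (y c : X) : Prop where
  deep : S.R y * S.a y < Δ
  hθ : θ ≤ S.a y
  hc : c ∈ S.C
  hD : S.D y c ≤ S.R y

/-- the critical value is at distance at most `Λ ψ` -/
theorem phi_le (H : Hyp S Λ Δ ρ0 θ Ea Eρ M Sm Γ Γp k0 n0) (hSm : 1 ≤ Sm) {y c : X}
    (h : Dp S Δ θ y c) : S.D (S.f y) (S.f c) ≤ Λ * (S.R y * S.a y) := by
  have h1 := H.dbl2 y h.deep h.hθ 1 le_rfl hSm y c (by rw [H.Dz, one_mul]; exact H.R0 y)
    (by rw [one_mul]; exact h.hD)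
  rwa [one_pow, mul_one] at h1

/-- lower bound of the derivatives along critical orbits -/
theorem P_low (H : Hyp S Λ Δ ρ0 θ Ea Eρ M Sm Γ Γp k0 n0) (hΓ : 1 ≤ Γ) {c : X} (hc : c ∈ S.C)
    {l : ℕ} (hl : l ≤ n0) : 1 / Ea ≤ P S l (S.f c) := by
  have hE : 1 / Ea ≤ 1 := by
    rw [div_le_one (by have := H.hEa; linarith)]
    exact H.hEa
  rcases l with _ | _ | l
  · rw [P_zero]; exact hE
  · rw [P_one]; exact H.alo c hc 0 (Nat.zero_le _)
  · exact (hE.trans hΓ).trans (H.gro c hc _ (by omega) hl)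

/-- **One deep block**: products and distances during the following. -/
theorem blk (H : Hyp S Λ Δ ρ0 θ Ea Eρ M Sm Γ Γp k0 n0) (hΓ : 1 ≤ Γ) {y c : X}
    (h : Dp S Δ θ y c) {L : ℕ} (hL : L ≤ n0)
    (hf : ∀ l < L, S.D (S.f^[l] (S.f y)) (S.f^[l] (S.f c)) ≤ S.ρ (S.f^[l] (S.f c)) / Λ) :
    (∀ l ≤ L, S.a y * P S l (S.f c) ≤ 2 * P S (l + 1) y) ∧
    (∀ l ≤ L, S.a y / (2 * Ea) ≤ P S (l + 1) y) ∧
    (∀ l < L, θ ≤ S.a (S.f^[l + 1] y)) ∧
    S.D (S.f^[L + 1] y) (S.f^[L] (S.f c)) * S.a y ≤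
      4 * (S.D (S.f y) (S.f c) * P S (L + 1) y) := by
  have hE := H.hEa
  have ha := H.a0 y
  have h1 : ∀ l ≤ L, S.a y * P S l (S.f c) ≤ 2 * P S (l + 1) y := by
    intro l hl
    rw [P_succ']
    have h2 := (shd H h.hc hL hf hl).1
    nlinarith
  refine ⟨h1, ?_, ?_, ?_⟩
  · intro l hl
    have h2 := h1 l hl
    have h3 := P_low H hΓ h.hc (hl.trans hL)
    have h4 : S.a y / (2 * Ea) = S.a y * (1 / Ea) / 2 := by field_simp
    rw [h4]
    have h5 := mul_le_mul_of_nonneg_left h3 ha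
    linarith
  · intro l hl
    exact H.hθE.trans (shd_a H h.hc (by omega) (hf l hl)).2
  · have h2 := (shd H h.hc hL hf le_rfl).2.2.2
    have h3 := h1 L le_rfl
    have hD := H.D0 (S.f y) (S.f c)
    calc S.D (S.f^[L] (S.f y)) (S.f^[L] (S.f c)) * S.a y ≤
        2 * (P S L (S.f c) * S.D (S.f y) (S.f c)) * S.a y := mul_le_mul_of_nonneg_right h2 ha
      _ = 2 * S.D (S.f y) (S.f c) * (S.a y * P S L (S.f c)) := by ring
      _ ≤ 2 * S.D (S.f y) (S.f c) * (2 * P S (L + 1) y) :=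
          mul_le_mul_of_nonneg_left h3 (by linarith)
      _ = _ := by ring

/-- the distance to the critical value grows with the derivative -/
theorem dst (H : Hyp S Λ Δ ρ0 θ Ea Eρ M Sm Γ Γp k0 n0) {y c : X}
    (h : Dp S Δ θ y c) {L : ℕ} (hL : L ≤ n0)
    (hf : ∀ l < L, S.D (S.f^[l] (S.f y)) (S.f^[l] (S.f c)) ≤ S.ρ (S.f^[l] (S.f c)) / Λ) :
    P S L (S.f c) * S.D (S.f y) (S.f c) ≤ 2 * S.D (S.f^[L + 1] y) (S.f^[L] (S.f c)) :=
  (shd H h.hc hL hf le_rfl).2.2.1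

end Pool.Agent.H91.BL
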