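import Pool.Agent.H91.BL.Exi

/-!
# Sharp smoothed Fatou: the block lemma, growth of `ψ = R a` along the marks of a window
-/

set_option autoImplicit false

open Finset

namespace Pool.Agent.H91.BL

variable {X : Type} {S : Sy X} {Λ Δ ρ0 θ Ea Eρ M Sm Γ Γp : ℝ} {k0 n0 : ℕ}

/-- relations between consecutive scales `s`, `t` -/
structure Nu (Λ s t Sm : ℝ) (k0 : ℕ) : Prop where
  hΛ : 8 ≤ Λ
  hs : Λ ≤ s
  ht : s ^ (2 * k0 + 20) ≤ t
  hS : t ^ (2 * k0 + 4) ≤ Sm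

theorem Nu.s8 {Λ s t Sm : ℝ} {k0 : ℕ} (h : Nu Λ s t Sm k0) : 8 ≤ s := h.hΛ.trans h.hs

theorem Nu.spow {Λ s t Sm : ℝ} {k0 : ℕ} (h : Nu Λ s t Sm k0) {n : ℕ} (hn : n ≤ 2 * k0 + 20) :
    s ^ n ≤ t :=
  (pow_le_pow_right₀ (by have := h.s8; linarith) hn).trans h.ht

theorem Nu.st {Λ s t Sm : ℝ} {k0 : ℕ} (h : Nu Λ s t Sm k0) : s ≤ t := by
  have h1 := h.spow (n := 1) (by omega)
  rwa [pow_one] at h1

theorem Nu.t8 {Λ s t Sm : ℝ} {k0 : ℕ} (h : Nu Λ s t Sm k0) : 8 ≤ t := h.s8.trans h.st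

theorem Nu.tpow {Λ s t Sm : ℝ} {k0 : ℕ} (h : Nu Λ s t Sm k0) {n : ℕ} (hn : n ≤ 2 * k0 + 4) :
    t ^ n ≤ Sm :=
  (pow_le_pow_right₀ (by have := h.t8; linarith) hn).trans h.hS

theorem Nu.tS {Λ s t Sm : ℝ} {k0 : ℕ} (h : Nu Λ s t Sm k0) : t ≤ Sm := by
  have h1 := h.tpow (n := 1) (by omega)
  rwa [pow_one] at h1

theorem Nu.S1 {Λ s t Sm : ℝ} {k0 : ℕ} (h : Nu Λ s t Sm k0) : 1 ≤ Sm := by
  have h1 := h.tS
  have h2 := h.t8
  linarith

/-- following with margin `t` from a deep point which is not a fold -/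
structure Fw (S : Sy X) (Δ θ s t : ℝ) (y c : X) (L : ℕ) : Prop extends Dp S Δ θ y c where
  nf : S.R y * S.a y ≤ s ^ 5 * S.D (S.f y) (S.f c)
  fw : ∀ l < L, S.D (S.f^[l] (S.f y)) (S.f^[l] (S.f c)) ≤ S.ρ (S.f^[l] (S.f c)) / t
  dz : S.R (S.f^[L + 1] y) * S.a (S.f^[L + 1] y) < Δ
  θz : θ ≤ S.a (S.f^[L + 1] y)
  sp : S.D (S.f^[L + 1] y) (S.f^[L] (S.f c)) ≤ t * S.R (S.f^[L + 1] y)

theorem Fw.fwΛ (H : Hyp S Λ Δ ρ0 θ Ea Eρ M Sm Γ Γp k0 n0) {s t : ℝ} (N : Nu Λ s t Sm k0)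
    {y c : X} {L : ℕ} (h : Fw S Δ θ s t y c L) (hL : L ≤ n0) : ∀ l < L,
    S.D (S.f^[l] (S.f y)) (S.f^[l] (S.f c)) ≤ S.ρ (S.f^[l] (S.f c)) / Λ := by
  intro l hl
  have h1 := H.rlo c h.hc l (by omega)
  have h2 : 0 < 1 / Eρ := by have := H.hEρ; positivity
  exact (h.fw l hl).trans (div_le_div_of_nonneg_left (by linarith) (by have := H.hΛ; linarith)
    (N.hs.trans N.st))

/-- growth if the following time is at least one -/
theorem grA (H : Hyp S Λ Δ ρ0 θ Ea Eρ M Sm Γ Γp k0 n0) {s t : ℝ} (N : Nu Λ s t Sm k0)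
    {y c : X} {L : ℕ} (h : Fw S Δ θ s t y c L) (hL : L + 1 ≤ n0) (hL1 : 1 ≤ L) :
    Γ * (S.R y * S.a y) ≤ Sm * (S.R (S.f^[L + 1] y) * S.a (S.f^[L + 1] y)) := by
  have hfΛ := h.fwΛ H N (by omega)
  have h1 := dst H h.toDp (by omega) hfΛ
  have hG := H.gro c h.hc (L + 1) (by omega) hL
  rw [P_succ] at hG
  have h3 := H.dbl1 _ h.dz h.θz t (by have := N.t8; linarith) N.tS _ h.sp
  have hP := P_nonneg H L (S.f c)
  have hsp := h.sp
  have hnf := h.nf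
  have hau := H.a0 (S.f^[L] (S.f c))
  have haz := H.a0 (S.f^[L + 1] y)
  have hψ := mul_nonneg (H.R0 y) (H.a0 y)
  have hRz := H.R0 (S.f^[L + 1] y)
  have hs0 : 0 ≤ s := by have := N.s8; linarith
  have hΛ0 : 0 ≤ Λ := by have := N.hΛ; linarith
  have ht0 : 0 ≤ t := by have := N.t8; linarith
  generalize S.D (S.f^[L + 1] y) (S.f^[L] (S.f c)) = D' at h1 hsp
  generalize S.a (S.f^[L] (S.f c)) = au at hG h3 hau
  generalize S.a (S.f^[L + 1] y) = az at h3 haz ⊢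
  generalize S.R (S.f^[L + 1] y) = Rz at hsp hRz ⊢
  generalize S.D (S.f y) (S.f c) = φ at h1 hnf
  generalize P S L (S.f c) = p at h1 hG hP
  have hnum : 2 * s ^ 5 * (Λ * t ^ k0) * t ≤ Sm := by
    have e1 : 2 * Λ * s ^ 5 ≤ t := by
      calc 2 * Λ * s ^ 5 ≤ s * s * s ^ 5 := by
            refine mul_le_mul_of_nonneg_right ?_ (pow_nonneg hs0 _)
            exact mul_le_mul (by have := N.s8; linarith) N.hs hΛ0 hs0
        _ = s ^ 7 := by ring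
        _ ≤ t := N.spow (by omega)
    calc 2 * s ^ 5 * (Λ * t ^ k0) * t = (2 * Λ * s ^ 5) * (t ^ k0 * t) := by ring
      _ ≤ t * (t ^ k0 * t) := mul_le_mul_of_nonneg_right e1 (by positivity)
      _ = t ^ (k0 + 2) := by ring
      _ ≤ Sm := N.tpow (by omega)
  calc Γ * (S.R y * S.a y) ≤ p * au * (s ^ 5 * φ) :=
        mul_le_mul hG hnf hψ (mul_nonneg hP hau)
    _ = s ^ 5 * au * (p * φ) := by ring
    _ ≤ s ^ 5 * au * (2 * D') := mul_le_mul_of_nonneg_left h1 (by positivity)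
    _ ≤ s ^ 5 * au * (2 * (t * Rz)) :=
        mul_le_mul_of_nonneg_left (by linarith) (by positivity)
    _ = 2 * s ^ 5 * (t * Rz) * au := by ring
    _ ≤ 2 * s ^ 5 * (t * Rz) * (Λ * t ^ k0 * az) :=
        mul_le_mul_of_nonneg_left h3 (by positivity)
    _ = 2 * s ^ 5 * (Λ * t ^ k0) * t * (Rz * az) := by ring
    _ ≤ Sm * (Rz * az) := mul_le_mul_of_nonneg_right hnum (mul_nonneg hRz haz)

/-- growth over two blocks if the first following time is zero -/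
theorem grB (H : Hyp S Λ Δ ρ0 θ Ea Eρ M Sm Γ Γp k0 n0) {s t : ℝ} (N : Nu Λ s t Sm k0)
    {y c : X} {L : ℕ} (h : Fw S Δ θ s t y c L) (hL : L + 2 ≤ n0) {c' : X} (hc' : c' ∈ S.C)
    {ψ' : ℝ} (hψ' : 0 ≤ ψ') (hn : ψ' ≤ s ^ 5 * S.D y (S.f c'))
    (hsp' : S.D y (S.f c') ≤ s * S.R y) :
    Γ * ψ' ≤ Sm * (S.R (S.f^[L + 1] y) * S.a (S.f^[L + 1] y)) := by
  have hfΛ := h.fwΛ H N (by omega)
  have hLn : L ≤ n0 := by omega
  have h1 := dst H h.toDp hLn hfΛ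
  obtain ⟨w, hw⟩ : ∃ w, w = S.f c' := ⟨_, rfl⟩
  rw [← hw] at hn hsp'
  have hs8 := N.s8
  have ht8 := N.t8
  have hst := N.st
  have hs0 : 0 ≤ s := by linarith
  have ht0 : 0 ≤ t := by linarith
  have hΛ8 := N.hΛ
  have hΛs := N.hs
  have hΛ0 : 0 ≤ Λ := by linarith
  have hRy := H.R0 y
  have hay := H.a0 y
  have hψ := mul_nonneg hRy hay
  have hφ0 := H.D0 (S.f y) (S.f c)
  -- `D (f w) (f c)`
  obtain ⟨C1, hC1⟩ : ∃ C1 : ℝ, C1 = Λ * s ^ (k0 + 1) * s ^ 5 := ⟨_, rfl⟩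
  have hC1le : C1 ≤ s ^ (2 * k0 + 8) := by
    rw [hC1]
    calc Λ * s ^ (k0 + 1) * s ^ 5 ≤ s * s ^ (k0 + 1) * s ^ 5 := by gcongr
      _ = s ^ (k0 + 7) := by ring
      _ ≤ s ^ (2 * k0 + 8) := pow_le_pow_right₀ (by linarith) (by omega)
  have hC10 : 1 ≤ C1 := by
    rw [hC1]
    have e1 : 1 ≤ s ^ (k0 + 1) := one_le_pow₀ (by linarith)
    have e2 : 1 ≤ s ^ 5 := one_le_pow₀ (by linarith)
    exact one_le_mul_of_one_le_of_one_le (one_le_mul_of_one_le_of_one_le (by linarith) e1) e2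
  have hC1t : 5 * C1 * Λ ≤ t := by
    calc 5 * C1 * Λ ≤ s * s ^ (2 * k0 + 8) * s := by
          gcongr
          linarith
      _ = s ^ (2 * k0 + 10) := by ring
      _ ≤ t := N.spow (by omega)
  have hfw : S.D (S.f w) (S.f c) ≤ C1 * S.D (S.f y) (S.f c) := by
    have e5 := H.dbl2 y h.deep h.hθ s (by linarith) (by linarith [N.tS]) w c hsp'
      (h.hD.trans (le_mul_of_one_le_left hRy (by linarith)))
    calc S.D (S.f w) (S.f c) ≤ Λ * s ^ (k0 + 1) * (S.R y * S.a y) := e5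
      _ ≤ Λ * s ^ (k0 + 1) * (s ^ 5 * S.D (S.f y) (S.f c)) :=
          mul_le_mul_of_nonneg_left h.nf (by positivity)
      _ = C1 * S.D (S.f y) (S.f c) := by rw [hC1]; ring
  -- joint following
  have hj : ∀ l < L, S.D (S.f^[l] (S.f w)) (S.f^[l] (S.f c)) ≤ S.ρ (S.f^[l] (S.f c)) / Λ := by
    refine join H h.hc hLn fun l hl => ?_
    have e1 := (shd H h.hc (L := l) (by omega) (fun j hj => hfΛ j (by omega)) le_rfl).2.2.1
    have e2 := h.fw l hl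
    have e3 := P_nonneg H l (S.f c)
    have e4 : 0 ≤ S.ρ (S.f^[l] (S.f c)) := by
      have e5 := H.rlo c h.hc l (by omega)
      have e6 : 0 < 1 / Eρ := by have := H.hEρ; positivity
      linarith
    calc 2 * (P S l (S.f c) * S.D (S.f w) (S.f c)) ≤
        2 * (P S l (S.f c) * (C1 * S.D (S.f y) (S.f c))) := by gcongr
      _ = 2 * C1 * (P S l (S.f c) * S.D (S.f y) (S.f c)) := by ring
      _ ≤ 2 * C1 * (2 * S.D (S.f^[l] (S.f y)) (S.f^[l] (S.f c))) := by gcongr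
      _ ≤ 2 * C1 * (2 * (S.ρ (S.f^[l] (S.f c)) / t)) := by gcongr
      _ = S.ρ (S.f^[l] (S.f c)) * (4 * C1 / t) := by ring
      _ ≤ S.ρ (S.f^[l] (S.f c)) * (1 / Λ) := by
          refine mul_le_mul_of_nonneg_left ?_ e4
          rw [div_le_div_iff₀ (by linarith) (by linarith)]
          have : 0 ≤ C1 * Λ := by positivity
          linarith
      _ = S.ρ (S.f^[l] (S.f c)) / Λ := by ring
  obtain ⟨-, g2, -, g4⟩ := shd H h.hc hLn hj le_rfl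
  have hPc := P_nonneg H L (S.f c)
  have hPw := P_nonneg H L (S.f w)
  have hD0 := H.D0 (S.f^[L + 1] y) (S.f^[L] (S.f c))
  have hRz := H.R0 (S.f^[L + 1] y)
  have haz := H.a0 (S.f^[L + 1] y)
  -- the point `f^L (f w)` is close to `z`
  have g5 : S.D (S.f^[L] (S.f w)) (S.f^[L] (S.f c)) ≤
      4 * C1 * S.D (S.f^[L + 1] y) (S.f^[L] (S.f c)) := by
    calc S.D (S.f^[L] (S.f w)) (S.f^[L] (S.f c)) ≤
        2 * (P S L (S.f c) * S.D (S.f w) (S.f c)) := g4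
      _ ≤ 2 * (P S L (S.f c) * (C1 * S.D (S.f y) (S.f c))) := by gcongr
      _ = 2 * C1 * (P S L (S.f c) * S.D (S.f y) (S.f c)) := by ring
      _ ≤ 2 * C1 * (2 * S.D (S.f^[L + 1] y) (S.f^[L] (S.f c))) := by gcongr
      _ = _ := by ring
  have g6 : S.D (S.f^[L + 1] y) (S.f^[L] (S.f w)) ≤ t ^ 2 * S.R (S.f^[L + 1] y) := by
    have e1 := H.Dt (S.f^[L + 1] y) (S.f^[L] (S.f c)) (S.f^[L] (S.f w))
    rw [H.Ds (S.f^[L] (S.f c)) (S.f^[L] (S.f w))] at e1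
    have e2 := h.sp
    have e3 : 5 * C1 ≤ t := by
      have : 5 * C1 * 1 ≤ 5 * C1 * Λ := by gcongr; linarith
      linarith
    calc S.D (S.f^[L + 1] y) (S.f^[L] (S.f w)) ≤
        5 * C1 * S.D (S.f^[L + 1] y) (S.f^[L] (S.f c)) := by nlinarith
      _ ≤ t * (t * S.R (S.f^[L + 1] y)) := mul_le_mul e3 e2 hD0 ht0
      _ = _ := by ring
  have ht2 : t ^ 2 ≤ Sm := N.tpow (by omega)
  have g7 := H.dbl1 _ h.dz h.θz (t ^ 2) (one_le_pow₀ (by linarith)) ht2 _ g6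
  have g8 := H.dbl1 y h.deep h.hθ s (by linarith) (by linarith [N.tS]) w hsp'
  have hG := H.gro c' hc' (L + 2) (by omega) hL
  rw [← hw, show L + 2 = (L + 1) + 1 from rfl, P_succ', P_succ] at hG
  have haw := H.a0 w
  have hav := H.a0 (S.f^[L] (S.f w))
  have hφ' := H.D0 y w
  have hnf := h.nf
  have hsp := h.sp
  generalize S.D (S.f^[L + 1] y) (S.f^[L] (S.f c)) = D' at h1 hsp hD0
  generalize S.a (S.f^[L] (S.f w)) = av at hG g7 hav
  generalize S.a (S.f^[L + 1] y) = az at g7 haz ⊢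
  generalize S.R (S.f^[L + 1] y) = Rz at hsp hRz ⊢
  generalize S.D (S.f y) (S.f c) = φ at h1 hnf hφ0
  generalize P S L (S.f c) = p at h1 g2 hPc
  generalize P S L (S.f w) = pw at hG g2 hPw
  generalize S.a w = aw at hG g8 haw
  generalize S.D y w = φ' at hn hsp' hφ'
  generalize S.a y = ay at g8 hnf hay hψ
  generalize S.R y = Ry at hsp' hnf hRy hψ
  have hnum : 4 * Λ ^ 2 * s ^ (k0 + 11) ≤ t := by
    calc 4 * Λ ^ 2 * s ^ (k0 + 11) ≤ s * s ^ 2 * s ^ (k0 + 11) := by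
          gcongr
          linarith
      _ = s ^ (k0 + 14) := by ring
      _ ≤ t := N.spow (by omega)
  have hawφ : aw * φ' ≤ Λ * s ^ (k0 + 6) * φ := by
    calc aw * φ' ≤ (Λ * s ^ k0 * ay) * (s * Ry) := mul_le_mul g8 hsp' hφ' (by positivity)
      _ = Λ * s ^ (k0 + 1) * (Ry * ay) := by ring
      _ ≤ Λ * s ^ (k0 + 1) * (s ^ 5 * φ) := by gcongr
      _ = _ := by ring
  calc Γ * ψ' ≤ aw * (pw * av) * (s ^ 5 * φ') := mul_le_mul hG hn hψ' (by positivity)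
    _ = s ^ 5 * pw * av * (aw * φ') := by ring
    _ ≤ s ^ 5 * pw * av * (Λ * s ^ (k0 + 6) * φ) := by gcongr
    _ = Λ * s ^ (k0 + 11) * av * (pw * φ) := by ring
    _ ≤ Λ * s ^ (k0 + 11) * av * (4 * D') := by
        have : pw * φ ≤ 4 * D' := by nlinarith
        gcongr
    _ ≤ Λ * s ^ (k0 + 11) * (Λ * (t ^ 2) ^ k0 * az) * (4 * (t * Rz)) := by gcongr
    _ = (4 * Λ ^ 2 * s ^ (k0 + 11)) * (t * (t ^ 2) ^ k0) * (Rz * az) := by ring
    _ ≤ t * (t * (t ^ 2) ^ k0) * (Rz * az) := by gcongr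
    _ = t ^ (2 * k0 + 2) * (Rz * az) := by rw [← pow_mul]; ring
    _ ≤ Sm * (Rz * az) := by
        have := N.tpow (n := 2 * k0 + 2) (by omega)
        gcongr

end Pool.Agent.H91.BL
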