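import Pool.Agent.H91.BL.Def

/-!
# Sharp smoothed Fatou: the block lemma, shadowing of critical orbits
-/

set_option autoImplicit false

open Finset

namespace Pool.Agent.H91.BL

variable {X : Type} {S : Sy X} {Λ Δ ρ0 θ Ea Eρ M Sm Γ Γp : ℝ} {k0 n0 : ℕ}

theorem P_nonneg (H : Hyp S Λ Δ ρ0 θ Ea Eρ M Sm Γ Γp k0 n0) (n : ℕ) (x : X) : 0 ≤ P S n x :=
  prod_nonneg fun _ _ => H.a0 _

theorem P_pos_crit (H : Hyp S Λ Δ ρ0 θ Ea Eρ M Sm Γ Γp k0 n0) {c : X} (hc : c ∈ S.C) {n : ℕ}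
    (hn : n ≤ n0 + 1) : 0 < P S n (S.f c) := by
  refine prod_pos fun l hl => ?_
  have h1 := H.alo c hc l (by have := mem_range.1 hl; omega)
  have h2 : 0 < 1 / Ea := by have := H.hEa; positivity
  linarith

private theorem eta (H : Hyp S Λ Δ ρ0 θ Ea Eρ M Sm Γ Γp k0 n0) :
    0 ≤ (1 / (8 * n0) : ℝ) ∧ (1 / (8 * n0) : ℝ) ≤ 1 / 8 := by
  have h1 : (1 : ℝ) ≤ n0 := by exact_mod_cast H.hn0
  refine ⟨by positivity, ?_⟩
  rw [div_le_div_iff₀ (by positivity) (by norm_num)]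
  linarith

/-- bounds for the powers of `1 ± 1 / (8 n0)` -/
theorem pw (H : Hyp S Λ Δ ρ0 θ Ea Eρ M Sm Γ Γp k0 n0) {l : ℕ} (hl : l ≤ n0) :
    1 / 2 ≤ (1 - 1 / (8 * n0) : ℝ) ^ l ∧ (1 + 1 / (8 * n0) : ℝ) ^ l ≤ 2 := by
  obtain ⟨h0, h1⟩ := eta H
  have hn : (1 : ℝ) ≤ n0 := by exact_mod_cast H.hn0
  generalize hη : (1 / (8 * n0) : ℝ) = η at h0 h1
  have hηn : (n0 : ℝ) * η = 1 / 8 := by
    rw [← hη]
    field_simp
  have h2 : 1 + (l : ℝ) * (-η) ≤ (1 + -η) ^ l := one_add_mul_le_pow (by linarith) l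
  have h3 : (l : ℝ) * η ≤ n0 * η := mul_le_mul_of_nonneg_right (by exact_mod_cast hl) h0
  have h4 : 1 / 2 ≤ (1 - η) ^ l := by
    have h5 : (1 + -η) = 1 - η := by ring
    rw [h5] at h2
    linarith
  refine ⟨h4, ?_⟩
  have h5 : (1 + η) ^ l * (1 - η) ^ l ≤ 1 := by
    rw [← mul_pow]
    refine pow_le_one₀ ?_ ?_
    · exact mul_nonneg (by linarith) (by linarith)
    · nlinarith
  have h6 : 0 ≤ (1 + η) ^ l := pow_nonneg (by linarith) l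
  nlinarith

/-- **Shadowing.** -/
theorem shd0 (H : Hyp S Λ Δ ρ0 θ Ea Eρ M Sm Γ Γp k0 n0) {c z : X} (hc : c ∈ S.C) {L : ℕ}
    (hL : L ≤ n0 + 1)
    (h : ∀ l < L, S.D (S.f^[l] z) (S.f^[l] (S.f c)) ≤ S.ρ (S.f^[l] (S.f c)) / Λ) :
    ∀ l ≤ L, ((1 - 1 / (8 * n0) : ℝ) ^ l * P S l (S.f c) ≤ P S l z ∧
      P S l z ≤ (1 + 1 / (8 * n0) : ℝ) ^ l * P S l (S.f c)) ∧
      ((1 - 1 / (8 * n0) : ℝ) ^ l * (P S l (S.f c) * S.D z (S.f c)) ≤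
        S.D (S.f^[l] z) (S.f^[l] (S.f c)) ∧
      S.D (S.f^[l] z) (S.f^[l] (S.f c)) ≤
        (1 + 1 / (8 * n0) : ℝ) ^ l * (P S l (S.f c) * S.D z (S.f c))) := by
  obtain ⟨h0, h1⟩ := eta H
  intro l
  induction l with
  | zero =>
    intro _
    simp [P_zero]
  | succ l ih =>
    intro hl
    obtain ⟨⟨h2, h3⟩, h4, h5⟩ := ih (by omega)
    have hll : l ≤ n0 := by omega
    have h6 := h l (by omega)
    obtain ⟨h7, h8⟩ := H.lin1 c hc l hll _ h6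
    obtain ⟨h9, h10⟩ := H.lin2 c hc l hll _ h6
    have hit : ∀ w : X, S.f^[l + 1] w = S.f (S.f^[l] w) := fun w =>
      Function.iterate_succ_apply' S.f l w
    generalize hη : (1 / (8 * n0) : ℝ) = η at *
    have hp0 := P_nonneg H l z
    have hp1 := P_nonneg H l (S.f c)
    have ha := H.a0 (S.f^[l] (S.f c))
    have ha' := H.a0 (S.f^[l] z)
    have hD := H.D0 (S.f^[l] z) (S.f^[l] (S.f c))
    have hD' := H.D0 z (S.f c)
    have e1 : 0 ≤ 1 - η := by linarith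
    have e2 : 0 ≤ 1 + η := by linarith
    rw [P_succ, P_succ, hit z]
    refine ⟨⟨?_, ?_⟩, ?_, ?_⟩
    · calc (1 - η) ^ (l + 1) * (P S l (S.f c) * S.a (S.f^[l] (S.f c))) =
          ((1 - η) ^ l * P S l (S.f c)) * ((1 - η) * S.a (S.f^[l] (S.f c))) := by ring
        _ ≤ P S l z * S.a (S.f^[l] z) := mul_le_mul h2 h7 (mul_nonneg e1 ha) hp0
    · calc P S l z * S.a (S.f^[l] z) ≤
          ((1 + η) ^ l * P S l (S.f c)) * ((1 + η) * S.a (S.f^[l] (S.f c))) :=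
            mul_le_mul h3 h8 ha' (mul_nonneg (pow_nonneg e2 l) hp1)
        _ = (1 + η) ^ (l + 1) * (P S l (S.f c) * S.a (S.f^[l] (S.f c))) := by ring
    · calc (1 - η) ^ (l + 1) * (P S l (S.f c) * S.a (S.f^[l] (S.f c)) * S.D z (S.f c)) =
          (1 - η) * (S.a (S.f^[l] (S.f c)) * ((1 - η) ^ l * (P S l (S.f c) * S.D z (S.f c)))) := by
            ring
        _ ≤ (1 - η) * (S.a (S.f^[l] (S.f c)) * S.D (S.f^[l] z) (S.f^[l] (S.f c))) :=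
            mul_le_mul_of_nonneg_left (mul_le_mul_of_nonneg_left h4 ha) e1
        _ ≤ _ := h9
    · calc S.D (S.f (S.f^[l] z)) (S.f^[l + 1] (S.f c)) ≤
          (1 + η) * (S.a (S.f^[l] (S.f c)) * S.D (S.f^[l] z) (S.f^[l] (S.f c))) := h10
        _ ≤ (1 + η) * (S.a (S.f^[l] (S.f c)) *
            ((1 + η) ^ l * (P S l (S.f c) * S.D z (S.f c)))) :=
            mul_le_mul_of_nonneg_left (mul_le_mul_of_nonneg_left h5 ha) e2
        _ = (1 + η) ^ (l + 1) * (P S l (S.f c) * S.a (S.f^[l] (S.f c)) * S.D z (S.f c)) := by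
            ring

/-- **Shadowing**, factors `2`. -/
theorem shd (H : Hyp S Λ Δ ρ0 θ Ea Eρ M Sm Γ Γp k0 n0) {c z : X} (hc : c ∈ S.C) {L : ℕ}
    (hL : L ≤ n0)
    (h : ∀ l < L, S.D (S.f^[l] z) (S.f^[l] (S.f c)) ≤ S.ρ (S.f^[l] (S.f c)) / Λ) {l : ℕ}
    (hl : l ≤ L) : P S l (S.f c) ≤ 2 * P S l z ∧ P S l z ≤ 2 * P S l (S.f c) ∧
      P S l (S.f c) * S.D z (S.f c) ≤ 2 * S.D (S.f^[l] z) (S.f^[l] (S.f c)) ∧
      S.D (S.f^[l] z) (S.f^[l] (S.f c)) ≤ 2 * (P S l (S.f c) * S.D z (S.f c)) := by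
  obtain ⟨⟨h2, h3⟩, h4, h5⟩ := shd0 H hc (hL.trans (Nat.le_succ n0)) h l hl
  obtain ⟨h6, h7⟩ := pw H (hl.trans hL)
  have hp := P_nonneg H l (S.f c)
  have hD := mul_nonneg hp (H.D0 z (S.f c))
  refine ⟨?_, ?_, ?_, ?_⟩
  · nlinarith
  · nlinarith
  · nlinarith
  · nlinarith

/-- the rate of expansion of a shadowing point -/
theorem shd_a (H : Hyp S Λ Δ ρ0 θ Ea Eρ M Sm Γ Γp k0 n0) {c z : X} (hc : c ∈ S.C) {l : ℕ}
    (hl : l ≤ n0)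
    (h : S.D z (S.f^[l] (S.f c)) ≤ S.ρ (S.f^[l] (S.f c)) / Λ) :
    S.a (S.f^[l] (S.f c)) ≤ 2 * S.a z ∧ 1 / (2 * Ea) ≤ S.a z := by
  obtain ⟨h7, -⟩ := H.lin1 c hc l hl _ h
  obtain ⟨h0, h1⟩ := eta H
  have h2 := H.alo c hc l hl
  have h3 := H.a0 (S.f^[l] (S.f c))
  have h4 : S.a (S.f^[l] (S.f c)) ≤ 2 * S.a z := by nlinarith
  refine ⟨h4, ?_⟩
  have h5 : 1 / (2 * Ea) = 1 / Ea / 2 := by rw [mul_comm, div_div]
  rw [h5]
  linarith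

/-- **Joint shadowing.** -/
theorem join (H : Hyp S Λ Δ ρ0 θ Ea Eρ M Sm Γ Γp k0 n0) {c y : X} (hc : c ∈ S.C) {L : ℕ}
    (hL : L ≤ n0)
    (h : ∀ l < L, 2 * (P S l (S.f c) * S.D y (S.f c)) ≤ S.ρ (S.f^[l] (S.f c)) / Λ) :
    ∀ l < L, S.D (S.f^[l] y) (S.f^[l] (S.f c)) ≤ S.ρ (S.f^[l] (S.f c)) / Λ := by
  intro l
  induction l using Nat.strong_induction_on with
  | _ l ih =>
    intro hl
    have h1 := (shd H hc (L := l) (by omega) (fun j hj => ih j hj (by omega)) le_rfl).2.2.2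
    exact h1.trans (h l hl)

end Pool.Agent.H91.BL
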