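import Pool.Agent.H91.BL.Grw

/-!
# Sharp smoothed Fatou: the block lemma, states and outcomes of a window
-/

set_option autoImplicit false

open Finset

namespace Pool.Agent.H91.BL

variable {X : Type}

/-- lower bounds for the partial products -/
def Prt (S : Sy X) (Ea Eρ Sm : ℝ) (x : X) (τ : ℕ) : Prop :=
  1 / Eρ ≤ S.R x → ∀ j, 1 ≤ j → j ≤ τ → ∀ e : ℝ, 0 ≤ e → e ≤ 1 →
    (∀ i < j, e ≤ S.a (S.f^[i] x)) → e / (2 * Ea * Eρ * Sm) ≤ P S j x * S.R x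

/-- the window which starts at `x` has reached its mark `k` at the time `τ` -/
structure Sta (S : Sy X) (Δ θ Ea Eρ Sm s : ℝ) (x : X) (τ : ℕ) : Prop where
  deep : S.R (S.f^[τ] x) * S.a (S.f^[τ] x) < Δ
  hθ : θ ≤ S.a (S.f^[τ] x)
  pre : ∀ i < τ, θ ≤ S.a (S.f^[i] x)
  prod : S.R (S.f^[τ] x) ≤ P S τ x * S.R x * s ^ 2
  low : 1 / Eρ ≤ S.R x → 1 / (Eρ * Sm) ≤ P S τ x * S.R x
  prt : Prt S Ea Eρ Sm x τ

/-- growth of `ψ` up to the mark `k`: `g` factors `Γ / Sm` -/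
def Gr (S : Sy X) (Γ Sm s : ℝ) (x : X) (k τ g : ℕ) : Prop :=
  (k ≤ 2 * g ∧ Γ ^ g * (S.R x * S.a x) ≤ Sm ^ g * (S.R (S.f^[τ] x) * S.a (S.f^[τ] x))) ∨
  (k ≤ 2 * g + 1 ∧ ∃ ψ' : ℝ, ∃ c' ∈ S.C, 0 ≤ ψ' ∧ Γ ^ g * (S.R x * S.a x) ≤ Sm ^ g * ψ' ∧
    ψ' ≤ s ^ 5 * S.D (S.f^[τ] x) (S.f c') ∧
    S.D (S.f^[τ] x) (S.f c') ≤ s * S.R (S.f^[τ] x))

/-- outcome of a window at the time `m` -/
structure Out (S : Sy X) (Λ θ Ea Eρ Sm K1 : ℝ) (x : X) (m : ℕ) : Prop where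
  m1 : 1 ≤ m
  pre : ∀ i < m, θ ≤ S.a (S.f^[i] x)
  prt : Prt S Ea Eρ Sm x m
  out : (θ ≤ S.a (S.f^[m] x) ∧ Λ * S.R (S.f^[m] x) ≤ P S m x * S.R x) ∨
    (S.a (S.f^[m] x) < θ ∧ 1 / (Eρ * Sm) ≤ P S m x * S.R x) ∨ K1 ≤ P S m x

variable {S : Sy X} {Λ Δ ρ0 θ Ea Eρ M Sm Γ Γp K1 A s t : ℝ} {k0 n0 nf : ℕ}

theorem it_add (S : Sy X) (x : X) (τ L : ℕ) :
    S.f^[τ + (L + 1)] x = S.f^[L + 1] (S.f^[τ] x) := by
  rw [add_comm, Function.iterate_add_apply]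

/-- data at the exit of a block (or when it is interrupted) -/
structure Ex (S : Sy X) (Λ θ Ea Eρ Sm s : ℝ) (x : X) (τ L : ℕ) (c : X) : Prop where
  pre : ∀ i < τ + (L + 1), θ ≤ S.a (S.f^[i] x)
  prt : Prt S Ea Eρ Sm x (τ + (L + 1))
  dis : S.D (S.f^[τ + (L + 1)] x) (S.f^[L] (S.f c)) ≤
    4 * Λ * s ^ 2 * (P S (τ + (L + 1)) x * S.R x)

theorem ex_of (H : Hyp S Λ Δ ρ0 θ Ea Eρ M Sm Γ Γp k0 n0) (hΓ : 1 ≤ Γ) (N : Nu Λ s t Sm k0)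
    {x : X} {τ : ℕ} (st : Sta S Δ θ Ea Eρ Sm s x τ) {c : X}
    (h : Dp S Δ θ (S.f^[τ] x) c) {L : ℕ} (hL : L ≤ n0)
    (hf : ∀ l < L, S.D (S.f^[l] (S.f (S.f^[τ] x))) (S.f^[l] (S.f c)) ≤
      S.ρ (S.f^[l] (S.f c)) / Λ) : Ex S Λ θ Ea Eρ Sm s x τ L c := by
  obtain ⟨b1, b2, b3, b4⟩ := blk H hΓ h hL hf
  have hEa := H.hEa
  have hEρ := H.hEρ
  have hSm := N.S1
  have hRx := H.R0 x
  refine ⟨?_, ?_, ?_⟩
  · intro i hi
    rcases lt_trichotomy i τ with h1 | h1 | h1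
    · exact st.pre i h1
    · rw [h1]; exact st.hθ
    · obtain ⟨l, rfl⟩ : ∃ l, i = τ + (l + 1) := ⟨i - τ - 1, by omega⟩
      rw [it_add]
      exact b3 l (by omega)
  · intro hx j hj1 hj e he0 he1 hej
    rcases le_or_gt j τ with h1 | h1
    · exact st.prt hx j hj1 h1 e he0 he1 hej
    · obtain ⟨l, rfl⟩ : ∃ l, j = τ + (l + 1) := ⟨j - τ - 1, by omega⟩
      have h2 := b2 l (by omega)
      have h3 := hej τ (by omega)
      have h4 := st.low hx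
      rw [P_add]
      have h5 : e / (2 * Ea) ≤ P S (l + 1) (S.f^[τ] x) :=
        (div_le_div_of_nonneg_right h3 (by linarith)).trans h2
      calc e / (2 * Ea * Eρ * Sm) = 1 / (Eρ * Sm) * (e / (2 * Ea)) := by
            field_simp
        _ ≤ P S τ x * S.R x * P S (l + 1) (S.f^[τ] x) :=
            mul_le_mul h4 h5 (by positivity) (mul_nonneg (P_nonneg H _ _) hRx)
        _ = _ := by ring
  · have hφ := phi_le H hSm h
    have hay : 0 < S.a (S.f^[τ] x) := lt_of_lt_of_le H.hθ h.hθ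
    have hP := P_nonneg H (L + 1) (S.f^[τ] x)
    rw [it_add, P_add]
    have e1 : S.D (S.f^[L + 1] (S.f^[τ] x)) (S.f^[L] (S.f c)) * S.a (S.f^[τ] x) ≤
        4 * Λ * s ^ 2 * (P S τ x * P S (L + 1) (S.f^[τ] x) * S.R x) * S.a (S.f^[τ] x) := by
      calc _ ≤ 4 * (S.D (S.f (S.f^[τ] x)) (S.f c) * P S (L + 1) (S.f^[τ] x)) := b4
        _ ≤ 4 * (Λ * (S.R (S.f^[τ] x) * S.a (S.f^[τ] x)) * P S (L + 1) (S.f^[τ] x)) := by
            gcongr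
        _ ≤ 4 * (Λ * ((P S τ x * S.R x * s ^ 2) * S.a (S.f^[τ] x)) *
              P S (L + 1) (S.f^[τ] x)) := by
            have := st.prod
            have hΛ := H.hΛ
            gcongr
        _ = _ := by ring
    exact le_of_mul_le_mul_right e1 hay

/-- lower bound of the product at an exit -/
theorem low_of (H : Hyp S Λ Δ ρ0 θ Ea Eρ M Sm Γ Γp k0 n0) (N : Nu Λ s t Sm k0) {D' q s' : ℝ}
    {c : X} (hc : c ∈ S.C) {L : ℕ} (hL : L ≤ n0) (hs' : Λ ≤ s') (hs't : s' ≤ t)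
    (hD : S.ρ (S.f^[L] (S.f c)) / s' < D') (hq : D' ≤ 4 * Λ * s ^ 2 * q) :
    1 / (Eρ * Sm) ≤ q := by
  have h1 := H.rlo c hc L hL
  have hΛ := N.hΛ
  have hEρ := H.hEρ
  have hs'0 : 0 < s' := by linarith
  have hs8 := N.s8
  have ht8 := N.t8
  have h2 : 1 / Eρ / s' ≤ D' := (div_le_div_of_nonneg_right h1 hs'0.le).trans hD.le
  have h3 : 4 * Λ * s ^ 2 * t ≤ Sm := by
    have e1 : 4 * Λ * s ^ 2 ≤ t := by
      calc 4 * Λ * s ^ 2 ≤ s * s * s ^ 2 := by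
            have := N.hs
            gcongr
            linarith
        _ = s ^ 4 := by ring
        _ ≤ t := N.spow (by omega)
    calc 4 * Λ * s ^ 2 * t ≤ t * t := by gcongr
      _ = t ^ 2 := by ring
      _ ≤ Sm := N.tpow (by omega)
  have hSm := N.S1
  rw [div_div, div_le_iff₀ (by positivity)] at h2
  rw [div_le_iff₀ (by positivity)]
  have hs0 : 0 ≤ s := by linarith
  have hq0 : 0 ≤ q := by
    by_contra hcon
    push Not at hcon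
    have e1 : 4 * Λ * s ^ 2 * q ≤ 0 := mul_nonpos_of_nonneg_of_nonpos (by positivity) hcon.le
    have e2 : D' * (Eρ * s') ≤ 0 := mul_nonpos_of_nonpos_of_nonneg (by linarith) (by positivity)
    linarith
  calc 1 ≤ D' * (Eρ * s') := h2
    _ ≤ 4 * Λ * s ^ 2 * q * (Eρ * t) := by gcongr
    _ = q * (Eρ * (4 * Λ * s ^ 2 * t)) := by ring
    _ ≤ q * (Eρ * Sm) := by gcongr

end Pool.Agent.H91.BL
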