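import Pool.Agent.H91.BL.Sta

/-!
# Sharp smoothed Fatou: the block lemma, from one mark of a window to the next one
-/

set_option autoImplicit false

open Finset

namespace Pool.Agent.H91.BL

variable {X : Type} {S : Sy X} {Λ Δ ρ0 θ Ea Eρ M Sm Γ Γp K1 A s t : ℝ} {k0 n0 nf : ℕ}

/-- one more step closes a window -/
theorem out_one (H : Hyp S Λ Δ ρ0 θ Ea Eρ M Sm Γ Γp k0 n0) (hSm : 1 ≤ Sm) {x : X} {n : ℕ}
    (hpre : ∀ i < n, θ ≤ S.a (S.f^[i] x)) (hprt : Prt S Ea Eρ Sm x n)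
    (hlow : 1 / (Eρ * Sm) ≤ P S n x * S.R x) (haz : θ ≤ S.a (S.f^[n] x))
    (hprod : Λ * ρ0 ≤ P S n x * S.R x * S.a (S.f^[n] x)) :
    Out S Λ θ Ea Eρ Sm K1 x (n + 1) := by
  have hEa := H.hEa
  have hEρ := H.hEρ
  have hΛ := H.hΛ
  have hP : P S (n + 1) x * S.R x = P S n x * S.R x * S.a (S.f^[n] x) := by
    rw [P_succ]
    ring
  refine ⟨by omega, ?_, ?_, ?_⟩
  · intro i hi
    rcases Nat.lt_succ_iff_lt_or_eq.1 hi with h1 | h1
    · exact hpre i h1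
    · rw [h1]; exact haz
  · intro hx j hj1 hj e he0 he1 hej
    rcases Nat.lt_or_ge j (n + 1) with h1 | h1
    · exact hprt hx j hj1 (by omega) e he0 he1 hej
    · have h2 : j = n + 1 := by omega
      subst h2
      rw [hP]
      have h3 := hej n (by omega)
      calc e / (2 * Ea * Eρ * Sm) ≤ e / (1 * Eρ * Sm) := by
            refine div_le_div_of_nonneg_left he0 (by positivity) ?_
            have : 1 ≤ 2 * Ea := by linarith
            gcongr
        _ = 1 / (Eρ * Sm) * e := by ring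
        _ ≤ P S n x * S.R x * S.a (S.f^[n] x) :=
            mul_le_mul hlow h3 he0 (mul_nonneg (P_nonneg H _ _) (H.R0 x))
  · rcases le_or_gt θ (S.a (S.f^[n + 1] x)) with h1 | h1
    · left
      refine ⟨h1, ?_⟩
      rw [hP]
      exact (mul_le_mul_of_nonneg_left (H.Rρ _) (by linarith)).trans hprod
    · right; left
      refine ⟨h1, ?_⟩
      rw [hP]
      have h2 : 1 / (Eρ * Sm) ≤ 1 / Eρ :=
        one_div_le_one_div_of_le (by linarith) (le_mul_of_one_le_right (by linarith) hSm)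
      have h3 : ρ0 ≤ Λ * ρ0 := le_mul_of_one_le_left H.hρ0.le (by linarith)
      linarith [H.hEρ0]

/-- the pole exit -/
theorem out_pole (H : Hyp S Λ Δ ρ0 θ Ea Eρ M Sm Γ Γp k0 n0) (N : Nu Λ s t Sm k0)
    {x : X} {τ L : ℕ} {c : X} (hc : c ∈ S.C) (hL : L ≤ n0) (ex : Ex S Λ θ Ea Eρ Sm s x τ L c)
    {s' : ℝ} (hs' : Λ ≤ s') (hs't : s' ≤ t)
    (hD : S.ρ (S.f^[L] (S.f c)) / s' < S.D (S.f^[τ + (L + 1)] x) (S.f^[L] (S.f c)))
    (hR : S.D (S.f^[τ + (L + 1)] x) (S.f^[L] (S.f c)) * s' < S.R (S.f^[L] (S.f c))) :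
    Out S Λ θ Ea Eρ Sm K1 x (τ + (L + 1) + 1) := by
  have hΛ := N.hΛ
  have hs8 := N.s8
  have ht8 := N.t8
  have hSm := N.S1
  have hs'0 : 0 < s' := by linarith
  have hlow := low_of H N hc hL hs' hs't hD ex.dis
  have hdis := ex.dis
  have hD0 : 0 < S.D (S.f^[τ + (L + 1)] x) (S.f^[L] (S.f c)) := by
    have h1 := H.rlo c hc L hL
    have h2 : 0 < 1 / Eρ := by have := H.hEρ; positivity
    exact lt_of_le_of_lt (div_nonneg (by linarith) hs'0.le) hD
  have hpole := H.pole c hc L hL (S.f^[τ + (L + 1)] x)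
    (by rw [div_lt_iff₀ hs'0] at hD; linarith)
    (by
      rw [div_lt_iff₀ hs'0] at hD
      refine hD.le.trans ?_
      rw [mul_comm]
      exact mul_le_mul_of_nonneg_right (hs't.trans N.tS) hD0.le)
    (by
      refine le_trans ?_ hR.le
      rw [mul_comm]
      exact mul_le_mul_of_nonneg_left hs' hD0.le)
  have haz0 := H.a0 (S.f^[τ + (L + 1)] x)
  have hΓp := H.hΓp
  have hRu := H.Rρ (S.f^[L] (S.f c))
  have hρ0 := H.hρ0
  have haz : θ ≤ S.a (S.f^[τ + (L + 1)] x) := by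
    have e1 : S.D (S.f^[τ + (L + 1)] x) (S.f^[L] (S.f c)) ≤ ρ0 := by
      have : S.D (S.f^[τ + (L + 1)] x) (S.f^[L] (S.f c)) * 1 ≤
          S.D (S.f^[τ + (L + 1)] x) (S.f^[L] (S.f c)) * s' :=
        mul_le_mul_of_nonneg_left (by linarith) hD0.le
      linarith
    have e2 : Γp * ρ0 ≤ S.a (S.f^[τ + (L + 1)] x) * ρ0 :=
      hpole.trans (mul_le_mul_of_nonneg_left e1 haz0)
    have e3 := le_of_mul_le_mul_right e2 hρ0
    have e4 : 1 ≤ Λ * Sm := one_le_mul_of_one_le_of_one_le (by linarith) hSm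
    have e5 : θ ≤ 1 := by
      refine H.hθE.trans ?_
      rw [div_le_one (by have := H.hEa; linarith)]
      have := H.hEa
      linarith
    linarith
  refine out_one H hSm ex.pre ex.prt hlow haz ?_
  have hq := mul_nonneg (P_nonneg H (τ + (L + 1)) x) (H.R0 x)
  generalize S.D (S.f^[τ + (L + 1)] x) (S.f^[L] (S.f c)) = D' at *
  generalize S.a (S.f^[τ + (L + 1)] x) = az at *
  generalize P S (τ + (L + 1)) x * S.R x = q at *
  have e1 : 4 * Λ * s ^ 2 * Λ ≤ Λ * Sm := by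
    have e2 : 4 * Λ * s ^ 2 ≤ Sm := by
      calc 4 * Λ * s ^ 2 ≤ s * s * s ^ 2 := by
            have := N.hs
            gcongr
            linarith
        _ = s ^ 4 := by ring
        _ ≤ t := N.spow (by omega)
        _ ≤ Sm := N.tS
    calc 4 * Λ * s ^ 2 * Λ ≤ Sm * Λ := by gcongr
      _ = Λ * Sm := mul_comm _ _
  have e3 : (4 * Λ * s ^ 2) * (Λ * ρ0) ≤ (4 * Λ * s ^ 2) * (q * az) := by
    calc (4 * Λ * s ^ 2) * (Λ * ρ0) = 4 * Λ * s ^ 2 * Λ * ρ0 := by ring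
      _ ≤ Γp * ρ0 := by gcongr; linarith
      _ ≤ az * D' := hpole
      _ ≤ az * (4 * Λ * s ^ 2 * q) := by gcongr
      _ = _ := by ring
  exact le_of_mul_le_mul_left e3 (by positivity)

/-- long following -/
theorem out_long (H : Hyp S Λ Δ ρ0 θ Ea Eρ M Sm Γ Γp k0 n0) (hΓ : 1 ≤ Γ)
    (N : Nu Λ s t Sm k0) (hAK : 2 * M * Sm * K1 ≤ θ ^ 2 * A) {x : X} {τ : ℕ}
    (st : Sta S Δ θ Ea Eρ Sm s x τ) {c : X} (h : Dp S Δ θ (S.f^[τ] x) c) {j : ℕ}
    (hj : j ≤ n0) (hA : A ≤ P S j (S.f c))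
    (hf : ∀ l < j, S.D (S.f^[l] (S.f (S.f^[τ] x))) (S.f^[l] (S.f c)) ≤
      S.ρ (S.f^[l] (S.f c)) / Λ) : Out S Λ θ Ea Eρ Sm K1 x (τ + (j + 1)) := by
  have ex := ex_of H hΓ N st h hj hf
  obtain ⟨b1, -, -, -⟩ := blk H hΓ h hj hf
  refine ⟨by omega, ex.pre, ex.prt, Or.inr (Or.inr ?_)⟩
  have h1 := b1 j le_rfl
  have hθ := H.hθ
  have hM := H.hM
  have hs8 := N.s8
  have hSm := N.S1
  have hay := H.a0 (S.f^[τ] x)
  have hPτ := P_nonneg H τ x
  have hPj := P_nonneg H j (S.f c)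
  have h2 : θ * A ≤ 2 * P S (j + 1) (S.f^[τ] x) := by
    rcases le_or_gt 0 A with hA0 | hA0
    · exact (mul_le_mul h.hθ hA hA0 hay).trans h1
    · have e1 := P_nonneg H (j + 1) (S.f^[τ] x)
      have e2 : θ * A ≤ 0 := mul_nonpos_of_nonneg_of_nonpos hθ.le hA0.le
      linarith
  have h3 : θ ≤ M * Sm * P S τ x := by
    have e1 := (h.hθ.trans (H.aR _)).trans (mul_le_mul_of_nonneg_left st.prod (by linarith))
    have e2 : P S τ x * S.R x * s ^ 2 ≤ P S τ x * 1 * Sm := by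
      have e3 := (H.Rρ x).trans H.hρ1
      have e4 : s ^ 2 ≤ Sm := (N.spow (by omega)).trans N.tS
      have e5 := H.R0 x
      gcongr
    calc θ ≤ M * (P S τ x * S.R x * s ^ 2) := e1
      _ ≤ M * (P S τ x * 1 * Sm) := by gcongr
      _ = _ := by ring
  rw [P_add]
  have hPj1 := P_nonneg H (j + 1) (S.f^[τ] x)
  generalize P S (j + 1) (S.f^[τ] x) = p2 at *
  generalize P S τ x = p1 at *
  have h4 : θ * (θ * A) ≤ M * Sm * p1 * (2 * p2) := by
    calc θ * (θ * A) ≤ θ * (2 * p2) := by gcongr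
      _ ≤ M * Sm * p1 * (2 * p2) := by gcongr
  have h5 : 2 * M * Sm * K1 ≤ 2 * M * Sm * (p1 * p2) := by
    calc 2 * M * Sm * K1 ≤ θ ^ 2 * A := hAK
      _ = θ * (θ * A) := by ring
      _ ≤ M * Sm * p1 * (2 * p2) := h4
      _ = _ := by ring
  exact le_of_mul_le_mul_left h5 (by positivity)

/-- **One step of the window.** -/
theorem stp (H : Hyp S Λ Δ ρ0 θ Ea Eρ M Sm Γ Γp k0 n0) (hΓ : 1 ≤ Γ)
    (N : Nu Λ s t Sm k0) (hnf : nf + 2 ≤ n0)
    (hA : ∀ c ∈ S.C, ∃ j ≤ nf, A ≤ P S j (S.f c))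
    (hAK : 2 * M * Sm * K1 ≤ θ ^ 2 * A) {x : X} {k τ g : ℕ}
    (st : Sta S Δ θ Ea Eρ Sm s x τ) (hg : Gr S Γ Sm s x k τ g) :
    (∃ m, m ≤ τ + nf + 2 ∧ Out S Λ θ Ea Eρ Sm K1 x m) ∨
    (∃ τ' g', τ' ≤ τ + nf + 1 ∧ Sta S Δ θ Ea Eρ Sm t x τ' ∧ Gr S Γ Sm t x (k + 1) τ' g') := by
  obtain ⟨c, hc, hcD⟩ := H.near _ st.deep st.hθ
  have dp : Dp S Δ θ (S.f^[τ] x) c := ⟨st.deep, st.hθ, hc, hcD⟩
  have hΛ := N.hΛ
  have hs8 := N.s8
  have ht8 := N.t8
  have hst := N.st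
  have hΛs := N.hs
  have hSm := N.S1
  have hρ : ∀ l ≤ n0, 0 ≤ S.ρ (S.f^[l] (S.f c)) := by
    intro l hl
    have h1 := H.rlo c hc l hl
    have h2 : 0 < 1 / Eρ := by have := H.hEρ; positivity
    linarith
  -- exit and following with a margin `s'`
  have main : ∀ s' : ℝ, Λ ≤ s' → s' ≤ t →
      (∃ m, m ≤ τ + nf + 2 ∧ Out S Λ θ Ea Eρ Sm K1 x m) ∨
      ∃ L ≤ nf, (∀ l < L, S.D (S.f^[l] (S.f (S.f^[τ] x))) (S.f^[l] (S.f c)) ≤
          S.ρ (S.f^[l] (S.f c)) / s') ∧ Ex S Λ θ Ea Eρ Sm s x τ L c ∧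
        1 / (Eρ * Sm) ≤ P S (τ + (L + 1)) x * S.R x ∧
        0 < S.D (S.f^[τ + (L + 1)] x) (S.f^[L] (S.f c)) ∧
        S.R (S.f^[τ + (L + 1)] x) ≤
          (s' + 1) * S.D (S.f^[τ + (L + 1)] x) (S.f^[L] (S.f c)) := by
    intro s' hs' hs't
    have hs'0 : 0 < s' := by linarith
    rcases exit_or S c (S.f (S.f^[τ] x)) s' nf with h1 | ⟨L, hL, h1, h2⟩
    · left
      obtain ⟨j, hj, hAj⟩ := hA c hc
      refine ⟨τ + (j + 1), by omega, out_long H hΓ N hAK st dp (by omega) hAj ?_⟩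
      intro l hl
      exact (h1 l (by omega)).trans (div_le_div_of_nonneg_left (hρ l (by omega)) (by linarith)
        hs')
    · have ex := ex_of H hΓ N st dp (L := L) (by omega) fun l hl =>
        (h1 l hl).trans (div_le_div_of_nonneg_left (hρ l (by omega)) (by linarith) hs')
      have h3 : S.ρ (S.f^[L] (S.f c)) / s' <
          S.D (S.f^[τ + (L + 1)] x) (S.f^[L] (S.f c)) := by
        rw [it_add]
        exact h2
      rcases lt_or_ge (S.D (S.f^[τ + (L + 1)] x) (S.f^[L] (S.f c)) * s')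
        (S.R (S.f^[L] (S.f c))) with h4 | h4
      · left
        exact ⟨_, by omega, out_pole H N hc (by omega) ex hs' hs't h3 h4⟩
      · right
        refine ⟨L, hL, h1, ex, low_of H N hc (by omega) hs' hs't h3 ex.dis, ?_, ?_⟩
        · exact lt_of_le_of_lt (div_nonneg (hρ L (by omega)) hs'0.le) h3
        · have h5 := H.Rl (S.f^[τ + (L + 1)] x) (S.f^[L] (S.f c))
          linarith
  have h4s : 4 * Λ * s ^ 2 ≤ s ^ 4 := by
    calc 4 * Λ * s ^ 2 ≤ s * s * s ^ 2 := by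
          gcongr
          linarith
      _ = s ^ 4 := by ring
  have hs4t : s ^ 4 * s ≤ t := by
    calc s ^ 4 * s = s ^ 5 := by ring
      _ ≤ t := N.spow (by omega)
  have hs40 : 0 < s ^ 4 := by positivity
  by_cases hfold : s ^ 5 * S.D (S.f (S.f^[τ] x)) (S.f c) ≤ S.R (S.f^[τ] x) * S.a (S.f^[τ] x)
  · -- fold
    left
    rcases main Λ le_rfl (hΛs.trans hst) with h | ⟨L, hL, h1, ex, hlow, hD0, hRz⟩
    · exact h
    refine ⟨τ + (L + 1), by omega, by omega, ex.pre, ex.prt, ?_⟩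
    rcases le_or_gt θ (S.a (S.f^[τ + (L + 1)] x)) with h5 | h5
    swap
    · exact Or.inr (Or.inl ⟨h5, hlow⟩)
    left
    refine ⟨h5, ?_⟩
    obtain ⟨-, -, -, b4⟩ := blk H hΓ dp (L := L) (by omega) h1
    -- `D' s ^ 3 ≤ 4 q`
    have hay : 0 < S.a (S.f^[τ] x) := lt_of_lt_of_le H.hθ st.hθ
    have hPL := P_nonneg H (L + 1) (S.f^[τ] x)
    have hprod := st.prod
    have e1 : s ^ 5 * (S.D (S.f^[τ + (L + 1)] x) (S.f^[L] (S.f c)) * S.a (S.f^[τ] x)) ≤
        4 * s ^ 2 * (P S (τ + (L + 1)) x * S.R x) * S.a (S.f^[τ] x) := by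
      rw [it_add, P_add]
      calc s ^ 5 * (S.D (S.f^[L + 1] (S.f^[τ] x)) (S.f^[L] (S.f c)) * S.a (S.f^[τ] x)) ≤
          s ^ 5 * (4 * (S.D (S.f (S.f^[τ] x)) (S.f c) * P S (L + 1) (S.f^[τ] x))) := by
            gcongr
        _ = 4 * P S (L + 1) (S.f^[τ] x) * (s ^ 5 * S.D (S.f (S.f^[τ] x)) (S.f c)) := by ring
        _ ≤ 4 * P S (L + 1) (S.f^[τ] x) * (S.R (S.f^[τ] x) * S.a (S.f^[τ] x)) := by gcongr
        _ ≤ 4 * P S (L + 1) (S.f^[τ] x) *
            ((P S τ x * S.R x * s ^ 2) * S.a (S.f^[τ] x)) := by gcongr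
        _ = _ := by ring
    have e2 : s ^ 5 * S.D (S.f^[τ + (L + 1)] x) (S.f^[L] (S.f c)) ≤
        4 * s ^ 2 * (P S (τ + (L + 1)) x * S.R x) := by
      refine le_of_mul_le_mul_right ?_ hay
      linarith
    generalize S.D (S.f^[τ + (L + 1)] x) (S.f^[L] (S.f c)) = D' at e2 hD0 hRz
    generalize P S (τ + (L + 1)) x * S.R x = q at e2 ⊢
    generalize S.R (S.f^[τ + (L + 1)] x) = Rz at hRz ⊢
    have e3 : s ^ 3 * D' ≤ 4 * q := by
      have e4 : s ^ 2 * (s ^ 3 * D') ≤ s ^ 2 * (4 * q) := by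
        calc s ^ 2 * (s ^ 3 * D') = s ^ 5 * D' := by ring
          _ ≤ 4 * s ^ 2 * q := e2
          _ = _ := by ring
      exact le_of_mul_le_mul_left e4 (by positivity)
    have e5 : 4 * (Λ * (Λ + 1)) ≤ s ^ 3 := by
      calc 4 * (Λ * (Λ + 1)) ≤ 8 * Λ ^ 2 := by nlinarith
        _ ≤ s * s ^ 2 := by gcongr
        _ = s ^ 3 := by ring
    have e6 : 4 * (Λ * Rz) ≤ 4 * q := by
      calc 4 * (Λ * Rz) ≤ 4 * (Λ * ((Λ + 1) * D')) := by gcongr
        _ = 4 * (Λ * (Λ + 1)) * D' := by ring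
        _ ≤ s ^ 3 * D' := by gcongr
        _ ≤ 4 * q := e3
    linarith
  · -- no fold
    push Not at hfold
    rcases main t (hΛs.trans hst) le_rfl with h | ⟨L, hL, h1, ex, hlow, hD0, hRz⟩
    · exact Or.inl h
    have hdis := ex.dis
    have hq := mul_nonneg (P_nonneg H (τ + (L + 1)) x) (H.R0 x)
    rcases lt_or_ge (S.a (S.f^[τ + (L + 1)] x)) θ with h5 | h5
    · left
      exact ⟨τ + (L + 1), by omega, by omega, ex.pre, ex.prt, Or.inr (Or.inl ⟨h5, hlow⟩)⟩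
    have hdis' : S.D (S.f^[τ + (L + 1)] x) (S.f^[L] (S.f c)) ≤
        s ^ 4 * (P S (τ + (L + 1)) x * S.R x) :=
      hdis.trans (mul_le_mul_of_nonneg_right h4s hq)
    rcases le_or_gt Δ (S.R (S.f^[τ + (L + 1)] x) * S.a (S.f^[τ + (L + 1)] x)) with h6 | h6
    · -- not deep
      left
      refine ⟨τ + (L + 1) + 1, by omega, out_one H hSm ex.pre ex.prt hlow h5 ?_⟩
      have haz := H.a0 (S.f^[τ + (L + 1)] x)
      have hΔ := H.hΔ
      have hρ0 := H.hρ0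
      generalize S.D (S.f^[τ + (L + 1)] x) (S.f^[L] (S.f c)) = D' at *
      generalize P S (τ + (L + 1)) x * S.R x = q at *
      generalize S.R (S.f^[τ + (L + 1)] x) = Rz at *
      generalize S.a (S.f^[τ + (L + 1)] x) = az at *
      have e1 : (t + 1) * s ^ 4 ≤ Sm := by
        calc (t + 1) * s ^ 4 ≤ (2 * t) * s ^ 4 := by gcongr; linarith
          _ ≤ (s * t) * s ^ 4 := by gcongr; linarith
          _ = t * (s ^ 4 * s) := by ring
          _ ≤ t * t := by gcongr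
          _ = t ^ 2 := by ring
          _ ≤ Sm := N.tpow (by omega)
      have e2 : Sm * (Λ * ρ0) ≤ Sm * (q * az) := by
        calc Sm * (Λ * ρ0) = Λ * Sm * ρ0 := by ring
          _ ≤ Δ := hΔ
          _ ≤ Rz * az := h6
          _ ≤ (t + 1) * D' * az := by gcongr
          _ ≤ (t + 1) * (s ^ 4 * q) * az := by gcongr
          _ = (t + 1) * s ^ 4 * (q * az) := by ring
          _ ≤ Sm * (q * az) := by gcongr
      exact le_of_mul_le_mul_left e2 (by linarith)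
    rcases le_or_gt (t * S.R (S.f^[τ + (L + 1)] x))
      (S.D (S.f^[τ + (L + 1)] x) (S.f^[L] (S.f c))) with h7 | h7
    · -- surplus
      left
      refine ⟨τ + (L + 1), by omega, by omega, ex.pre, ex.prt, Or.inl ⟨h5, ?_⟩⟩
      generalize S.D (S.f^[τ + (L + 1)] x) (S.f^[L] (S.f c)) = D' at *
      generalize P S (τ + (L + 1)) x * S.R x = q at *
      generalize S.R (S.f^[τ + (L + 1)] x) = Rz at *
      have e1 : t * (Λ * Rz) ≤ t * q := by
        calc t * (Λ * Rz) = Λ * (t * Rz) := by ring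
          _ ≤ Λ * D' := by gcongr
          _ ≤ s * (s ^ 4 * q) := by gcongr
          _ = (s ^ 4 * s) * q := by ring
          _ ≤ t * q := by gcongr
      exact le_of_mul_le_mul_left e1 (by linarith)
    -- the next mark
    right
    have hfw : Fw S Δ θ s t (S.f^[τ] x) c L := by
      refine ⟨dp, hfold.le, h1, ?_, ?_, ?_⟩
      · rw [← it_add]; exact h6
      · rw [← it_add]; exact h5
      · rw [← it_add]; exact h7.le
    have hSm0 : 0 ≤ Sm := by linarith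
    have hΓ0 : 0 ≤ Γ := by linarith
    have hst' : Sta S Δ θ Ea Eρ Sm t x (τ + (L + 1)) := by
      refine ⟨h6, h5, ex.pre, ?_, fun _ => hlow, ex.prt⟩
      calc S.R (S.f^[τ + (L + 1)] x) ≤
          (t + 1) * S.D (S.f^[τ + (L + 1)] x) (S.f^[L] (S.f c)) := hRz
        _ ≤ (s * t) * (s ^ 4 * (P S (τ + (L + 1)) x * S.R x)) := by
            gcongr
            nlinarith
        _ = (s ^ 4 * s) * t * (P S (τ + (L + 1)) x * S.R x) := by ring
        _ ≤ t * t * (P S (τ + (L + 1)) x * S.R x) := by gcongr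
        _ = _ := by ring
    rcases hg with ⟨hk, hgr⟩ | ⟨hk, ψ', c', hc', hψ'0, hgr, hn, hsp⟩
    · rcases Nat.eq_zero_or_pos L with hL0 | hL1
      · subst hL0
        refine ⟨τ + (0 + 1), g, by omega, hst', Or.inr ⟨by omega, _, c, hc,
          mul_nonneg (H.R0 (S.f^[τ] x)) (H.a0 (S.f^[τ] x)), hgr, ?_, ?_⟩⟩
        · refine hfold.le.trans ?_
          rw [it_add]
          have := H.D0 (S.f (S.f^[τ] x)) (S.f c)
          have e1 : s ^ 5 ≤ t ^ 5 := by gcongr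
          exact mul_le_mul_of_nonneg_right e1 this
        · exact h7.le
      · refine ⟨τ + (L + 1), g + 1, by omega, hst', Or.inl ⟨by omega, ?_⟩⟩
        have e1 := grA H N hfw (by omega) hL1
        rw [← it_add] at e1
        calc Γ ^ (g + 1) * (S.R x * S.a x) = Γ * (Γ ^ g * (S.R x * S.a x)) := by ring
          _ ≤ Γ * (Sm ^ g * (S.R (S.f^[τ] x) * S.a (S.f^[τ] x))) := by gcongr
          _ = Sm ^ g * (Γ * (S.R (S.f^[τ] x) * S.a (S.f^[τ] x))) := by ring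
          _ ≤ Sm ^ g * (Sm * (S.R (S.f^[τ + (L + 1)] x) * S.a (S.f^[τ + (L + 1)] x))) := by
              gcongr
          _ = _ := by ring
    · refine ⟨τ + (L + 1), g + 1, by omega, hst', Or.inl ⟨by omega, ?_⟩⟩
      have e1 := grB H N hfw (by omega) hc' hψ'0 hn hsp
      rw [← it_add] at e1
      calc Γ ^ (g + 1) * (S.R x * S.a x) = Γ * (Γ ^ g * (S.R x * S.a x)) := by ring
        _ ≤ Γ * (Sm ^ g * ψ') := by gcongr
        _ = Sm ^ g * (Γ * ψ') := by ring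
        _ ≤ Sm ^ g * (Sm * (S.R (S.f^[τ + (L + 1)] x) * S.a (S.f^[τ + (L + 1)] x))) := by
            gcongr
        _ = _ := by ring

end Pool.Agent.H91.BL
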