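import Pool.Agent.H91.BL.Stp

/-!
# Sharp smoothed Fatou: the block lemma, windows
-/

set_option autoImplicit false

open Finset

namespace Pool.Agent.H91.BL

variable {X : Type} {S : Sy X} {Λ Δ ρ0 θ Ea Eρ M Sm Γ Γp K1 A : ℝ} {k0 n0 nf b W : ℕ}

theorem nu_sc (hΛ : 8 ≤ Λ) (hb : 2 * k0 + 20 ≤ b) (hSm : Sc Λ b (2 * W + 2) ≤ Sm) {k : ℕ}
    (hk : k ≤ 2 * W) : Nu Λ (Sc Λ b k) (Sc Λ b (k + 1)) Sm k0 := by
  have h1 : 1 ≤ Λ := by linarith
  have h2 : Λ ≤ Sc Λ b k := Sc_ge h1 (by omega) k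
  have h3 : Λ ≤ Sc Λ b (k + 1) := Sc_ge h1 (by omega) (k + 1)
  refine ⟨hΛ, h2, ?_, ?_⟩
  · rw [Sc_succ]
    exact pow_le_pow_right₀ (by linarith) hb
  · calc Sc Λ b (k + 1) ^ (2 * k0 + 4) ≤ Sc Λ b (k + 1) ^ b :=
          pow_le_pow_right₀ (by linarith) (by omega)
      _ = Sc Λ b (k + 2) := (Sc_succ Λ b (k + 1)).symm
      _ ≤ Sc Λ b (2 * W + 2) := Sc_mono h1 (by omega) (by omega)
      _ ≤ Sm := hSm

/-- the number of growth factors is less than `W` -/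
theorem g_lt (H : Hyp S Λ Δ ρ0 θ Ea Eρ M Sm Γ Γp k0 n0) (hSm1 : 1 ≤ Sm) (hΓS : Sm ≤ Γ)
    (hW : Sm ^ (W + 1) * M ^ 2 < Γ ^ W * θ ^ 2) {s : ℝ} (hs : 0 ≤ s) (hs6 : s ^ 6 ≤ Sm)
    {x : X} (hx : θ ≤ S.a x) {k τ g : ℕ} (hg : Gr S Γ Sm s x k τ g) : g < W := by
  by_contra hcon
  push Not at hcon
  have hθ := H.hθ
  have hM := H.hM
  have hρ1 := H.hρ1
  have hSm0 : 0 < Sm := by linarith
  have hR0 := H.R0 x
  have h1 : θ ^ 2 ≤ M * (S.R x * S.a x) := by
    have e1 := hx.trans (H.aR x)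
    calc θ ^ 2 = θ * θ := by ring
      _ ≤ (M * S.R x) * S.a x := mul_le_mul e1 hx hθ.le (by positivity)
      _ = _ := by ring
  have h2 : Γ ^ g * (S.R x * S.a x) ≤ Sm ^ g * (M * Sm) := by
    rcases hg with ⟨-, hgr⟩ | ⟨-, ψ', c', -, hψ'0, hgr, hn, hsp⟩
    · refine hgr.trans (mul_le_mul_of_nonneg_left ?_ (by positivity))
      have e1 := H.Rρ (S.f^[τ] x)
      have e2 := H.aR (S.f^[τ] x)
      have e3 := H.R0 (S.f^[τ] x)
      have e4 := H.a0 (S.f^[τ] x)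
      have e5 : S.a (S.f^[τ] x) ≤ M * 1 := e2.trans (by gcongr; linarith)
      calc S.R (S.f^[τ] x) * S.a (S.f^[τ] x) ≤ 1 * (M * 1) := by
            refine mul_le_mul (by linarith) e5 e4 (by norm_num)
        _ = M * 1 := by ring
        _ ≤ M * Sm := by gcongr
    · refine hgr.trans (mul_le_mul_of_nonneg_left ?_ (by positivity))
      have e1 := H.Rρ (S.f^[τ] x)
      calc ψ' ≤ s ^ 5 * S.D (S.f^[τ] x) (S.f c') := hn
        _ ≤ s ^ 5 * (s * S.R (S.f^[τ] x)) := by gcongr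
        _ = s ^ 6 * S.R (S.f^[τ] x) := by ring
        _ ≤ Sm * 1 := by
            have e3 := H.R0 (S.f^[τ] x)
            gcongr
            linarith
        _ = 1 * Sm := by ring
        _ ≤ M * Sm := by gcongr
  have h3 : Γ ^ g * θ ^ 2 ≤ Sm ^ (g + 1) * M ^ 2 := by
    calc Γ ^ g * θ ^ 2 ≤ Γ ^ g * (M * (S.R x * S.a x)) := by
          have : 0 ≤ Γ := by linarith
          gcongr
      _ = M * (Γ ^ g * (S.R x * S.a x)) := by ring
      _ ≤ M * (Sm ^ g * (M * Sm)) := by gcongr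
      _ = _ := by ring
  obtain ⟨i, rfl⟩ := Nat.exists_eq_add_of_le hcon
  have h4 : Sm ^ i ≤ Γ ^ i := pow_le_pow_left₀ hSm0.le hΓS i
  have h5 : 0 < Γ ^ i := pow_pos (by linarith) i
  have h6 : Sm ^ (W + 1) * M ^ 2 * Γ ^ i < Γ ^ W * θ ^ 2 * Γ ^ i :=
    mul_lt_mul_of_pos_right hW h5
  have h7 : Γ ^ (W + i) * θ ^ 2 = Γ ^ W * θ ^ 2 * Γ ^ i := by rw [pow_add]; ring
  have h8 : Sm ^ (W + i + 1) * M ^ 2 = Sm ^ (W + 1) * M ^ 2 * Sm ^ i := by
    rw [show W + i + 1 = W + 1 + i by omega, pow_add]; ring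
  have h9 : Sm ^ (W + 1) * M ^ 2 * Sm ^ i ≤ Sm ^ (W + 1) * M ^ 2 * Γ ^ i := by gcongr
  linarith

/-- **Windows.** -/
theorem window (H : Hyp S Λ Δ ρ0 θ Ea Eρ M Sm Γ Γp k0 n0) (hb : 2 * k0 + 20 ≤ b)
    (hSm : Sc Λ b (2 * W + 2) ≤ Sm) (hΓS : Sm ≤ Γ)
    (hW : Sm ^ (W + 1) * M ^ 2 < Γ ^ W * θ ^ 2) (hnf : nf + 2 ≤ n0)
    (hA : ∀ c ∈ S.C, ∃ j ≤ nf, A ≤ P S j (S.f c))
    (hAK : 2 * M * Sm * K1 ≤ θ ^ 2 * A) {x : X} (hx : θ ≤ S.a x) :
    ∃ m, m ≤ 2 * W * (nf + 1) + 1 ∧ Out S Λ θ Ea Eρ Sm K1 x m := by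
  have hΛ := H.hΛ
  have hθ := H.hθ
  have hEa := H.hEa
  have hEρ := H.hEρ
  have hSm1 : 1 ≤ Sm := (nu_sc (k0 := k0) hΛ hb hSm (Nat.zero_le _)).S1
  rcases le_or_gt Δ (S.R x * S.a x) with h0 | h0
  · -- not deep
    refine ⟨1, by omega, ?_⟩
    have hP0 : P S 0 x * S.R x = S.R x := by rw [P_zero, one_mul]
    have e1 : Λ * ρ0 ≤ Δ := by
      refine le_trans ?_ H.hΔ
      have := H.hρ0
      calc Λ * ρ0 = Λ * 1 * ρ0 := by ring
        _ ≤ Λ * Sm * ρ0 := by gcongr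
    have e4 : S.f^[0] x = x := rfl
    refine ⟨le_rfl, ?_, ?_, ?_⟩
    · intro i hi
      have : i = 0 := by omega
      subst this
      exact hx
    · intro hxR j hj1 hj e he0 he1 hej
      have h2 : j = 1 := by omega
      subst h2
      rw [P_one]
      have h3 := hej 0 (by omega)
      rw [e4] at h3
      calc e / (2 * Ea * Eρ * Sm) ≤ e / (1 * Eρ * 1) := by
            refine div_le_div_of_nonneg_left he0 (by positivity) ?_
            have : 1 ≤ 2 * Ea := by linarith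
            gcongr
        _ = e * (1 / Eρ) := by ring
        _ ≤ S.a x * S.R x := mul_le_mul h3 hxR (by positivity) (H.a0 x)
    · rcases le_or_gt θ (S.a (S.f^[1] x)) with h1 | h1
      · left
        refine ⟨h1, ?_⟩
        rw [P_one]
        have := mul_le_mul_of_nonneg_left (H.Rρ (S.f^[1] x)) (show 0 ≤ Λ by linarith)
        linarith
      · right; left
        refine ⟨h1, ?_⟩
        rw [P_one]
        have h2 : 1 / (Eρ * Sm) ≤ 1 / Eρ :=
          one_div_le_one_div_of_le (by linarith) (le_mul_of_one_le_right (by linarith) hSm1)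
        have h3 : ρ0 ≤ Λ * ρ0 := le_mul_of_one_le_left H.hρ0.le (by linarith)
        linarith [H.hEρ0]
  · -- deep
    have loop : ∀ n ≤ 2 * W,
        (∃ m, m ≤ 2 * W * (nf + 1) + 1 ∧ Out S Λ θ Ea Eρ Sm K1 x m) ∨
        ∃ τ g, τ ≤ n * (nf + 1) ∧ Sta S Δ θ Ea Eρ Sm (Sc Λ b n) x τ ∧
          Gr S Γ Sm (Sc Λ b n) x n τ g := by
      intro n
      induction n with
      | zero =>
        intro _
        right
        refine ⟨0, 0, by omega, ⟨h0, hx, fun i hi => by omega, ?_, ?_, ?_⟩, Or.inl ⟨by omega, ?_⟩⟩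
        · rw [P_zero, Sc_zero, one_mul]
          exact le_mul_of_one_le_right (H.R0 x) (one_le_pow₀ (by linarith))
        · intro h1
          rw [P_zero, one_mul]
          exact (one_div_le_one_div_of_le (by linarith)
            (le_mul_of_one_le_right (by linarith) hSm1)).trans h1
        · intro _ j hj1 hj
          omega
        · simp
      | succ n ih =>
        intro hn
        rcases ih (by omega) with h | ⟨τ, g, hτ, st, hg⟩
        · exact Or.inl h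
        · have N := nu_sc (k0 := k0) hΛ hb hSm (show n ≤ 2 * W by omega)
          have hmul : (n + 1) * (nf + 1) ≤ 2 * W * (nf + 1) := Nat.mul_le_mul_right _ hn
          have hmul' : (n + 1) * (nf + 1) = n * (nf + 1) + (nf + 1) := by ring
          rcases stp H (hSm1.trans hΓS) N hnf hA hAK st hg with
            ⟨m, hm, ho⟩ | ⟨τ', g', hτ', st', hg'⟩
          · exact Or.inl ⟨m, by omega, ho⟩
          · exact Or.inr ⟨τ', g', by omega, st', hg'⟩
    rcases loop (2 * W) le_rfl with h | ⟨τ, g, -, st, hg⟩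
    · exact h
    · exfalso
      have N := nu_sc (k0 := k0) hΛ hb hSm (le_refl (2 * W))
      have hs8 := N.s8
      have h1 := g_lt H hSm1 hΓS hW (by linarith) ((N.spow (n := 6) (by omega)).trans N.tS) hx hg
      rcases hg with ⟨h2, -⟩ | ⟨h2, -⟩ <;> omega

end Pool.Agent.H91.BL
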